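import Pool.Agent.P.MP_27e7ce_al.Pos

namespace Pool.Agent.P.MP_27e7ce_al

open Finset

namespace Ctx

variable {G : Type} [Group G] (c : Ctx G)

lemma size_bound : ∃ B : ℕ, ∀ (p : ℕ → G) (N : ℕ), c.IsPath p N → p 0 = 1 →
    c.len (p N) = N → c.h (p N) = 0 → ∀ i ≤ N, (∀ n ≤ N, c.h (p n) ≤ c.h (p i)) →
    |c.v (p N)| ≤ B * (c.k : ℚ) ^ (c.h (p i)) := by
  obtain ⟨B, hB⟩ := c.low_bound
  refine ⟨2 * B, fun p N hp h0 hN hh i hi hmax => ?_⟩
  have hR : 0 ≤ c.h (p i) := by simpa [h0] using hmax 0 (Nat.zero_le _)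
  have l1 := hp.len_le (Nat.zero_le i) hi
  have l2 := hp.len_le hi le_rfl
  have l3 := c.len_mul (p i) ((p i)⁻¹ * p N)
  rw [mul_inv_cancel_left] at l3
  rw [h0, inv_one, one_mul] at l1
  have b1 := hB p i (fun n hn => hp n (by omega)) h0 (by omega) (c.h (p i)) hR le_rfl (range i)
    (fun n hn => ⟨Finset.mem_range.1 hn, hmax n (by have := Finset.mem_range.1 hn; omega)⟩)
  rw [sum_con, h0, v_one, sub_zero] at b1
  set p' : ℕ → G := fun n => (p N)⁻¹ * p (N - n) with hp'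
  have hp'0 : p' 0 = 1 := by simp [hp']
  have hp'N : p' (N - i) = (p N)⁻¹ * p i := by
    simp only [hp']; rw [Nat.sub_sub_self hi]
  have hp'h : ∀ n, c.h (p' n) = c.h (p (N - n)) := by intro n; simp [hp', hh]
  have hpath : c.IsPath p' (N - i) := by
    intro n hn
    have := c.inv_T _ (hp (N - (n + 1)) (by omega))
    have e : N - (n + 1) + 1 = N - n := by omega
    rw [e] at this
    simpa [hp', mul_assoc] using this
  have b2 := hB p' (N - i) hpath hp'0 (by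
      rw [hp'N, ← c.len_inv, mul_inv_rev, inv_inv]; omega) (c.h (p i)) hR
    (by rw [hp'h, Nat.sub_sub_self hi]) (range (N - i))
    (fun n hn => ⟨Finset.mem_range.1 hn, by rw [hp'h]; exact hmax _ (by omega)⟩)
  rw [sum_con, hp'0, v_one, sub_zero, hp'N, v_mul', v_inv, h_inv, hh] at b2
  simp only [neg_zero, zpow_zero, one_mul] at b2
  have := abs_sub (c.v (p i)) (-c.v (p N) + c.v (p i))
  have e : c.v (p i) - (-c.v (p N) + c.v (p i)) = c.v (p N) := by ring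
  rw [e] at this
  push_cast
  linarith

variable {c}

lemma CutConst.ab_data {C : ℕ} (hC : c.CutConst C) : ∃ K C' : ℕ, ∀ g : G, c.h g = 0 →
    ∃ (m : ℕ) (X y₁ y₂ : ℤ), 1 ≤ m ∧ |X| ≤ K * (c.k : ℤ) ^ m ∧ IsConj g (c.el X 0) ∧
      0 ≤ y₁ ∧ y₁ < (c.k : ℤ) ^ m ∧ y₁ - y₂ ≡ X [ZMOD (c.k : ℤ) ^ m] ∧
      c.L y₁ m + c.L y₂ m ≤ c.len g + C' := by
  obtain ⟨B, hB⟩ := c.size_bound
  refine ⟨B, 2 * ((c.E + 1) * c.len c.t) + 2 * C, fun g hg => ?_⟩
  obtain ⟨p, h0, hN, hp⟩ := c.path g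
  have hp : c.IsPath p (c.len g) := hp
  set N := c.len g with hNdef
  obtain ⟨ib, hib, hmin⟩ := Finset.exists_min_image (range (N + 1)) (fun i => c.h (p i))
    ⟨0, by simp⟩
  obtain ⟨it, hit, hmax⟩ := Finset.exists_max_image (range (N + 1)) (fun i => c.h (p i))
    ⟨0, by simp⟩
  simp only [Finset.mem_range] at hib hit hmin hmax
  have hsz := hB p N hp h0 (by rw [hN]) (by rw [hN, hg]) it (by omega)
    (fun n hn => hmax n (by omega))
  rw [hN] at hsz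
  obtain ⟨z, hz⟩ := hp.sum_int (c.h (p ib)) (range N) (fun i hi =>
    ⟨Finset.mem_range.1 hi, hmin i (by have := Finset.mem_range.1 hi; omega)⟩)
  rw [sum_con, h0, v_one, sub_zero, hN] at hz
  obtain ⟨m, hm⟩ : ∃ m : ℕ, (m : ℤ) = c.h (p it) - c.h (p ib) + c.E + 1 :=
    ⟨(c.h (p it) - c.h (p ib) + c.E + 1).toNat, by have := hmin it hit; omega⟩
  have kpos : ∀ n : ℕ, (0 : ℤ) < (c.k : ℤ) ^ n := fun n => by have := c.hk; positivity
  set y : G := c.t ^ ((c.E + 1 : ℕ) : ℤ) * (p ib)⁻¹ with hy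
  have hX : (c.k : ℚ) ^ (c.h y) * c.v g = ((c.k * z : ℤ) : ℚ) := by
    have : c.h y + (c.h (p ib) - c.E) = 1 := by simp [hy]; ring
    rw [hz, ← mul_assoc, ← zpow_add₀ c.k_ne, this]
    simp
  have hconj : y * g * y⁻¹ = c.el (c.k * z) 0 := by
    apply c.ext'
    · rw [v_conj, hX, hg]; simp
    · simp [hg]
  have hXb : |c.k * z| ≤ B * (c.k : ℤ) ^ m := by
    have h1 : |((c.k * z : ℤ) : ℚ)| ≤ B * (c.k : ℚ) ^ m := by
      rw [← hX, abs_mul, abs_of_pos (zpow_pos c.k_pos _)]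
      have e : (m : ℤ) = c.h y + c.h (p it) := by rw [hm]; simp [hy]; ring
      rw [← zpow_natCast, e, zpow_add₀ c.k_ne]
      have := zpow_pos c.k_pos (c.h y)
      calc _ ≤ (c.k : ℚ) ^ (c.h y) * (B * (c.k : ℚ) ^ (c.h (p it))) := by gcongr
        _ = _ := by ring
    exact_mod_cast h1
  obtain ⟨γ₁, γ₂, g1, g2, g3, g4⟩ : ∃ γ₁ γ₂ : G, c.h γ₁ = m ∧ c.h γ₂ = m ∧
      γ₁ = (y * g * y⁻¹) * γ₂ ∧ c.len γ₁ + c.len γ₂ ≤ N + 2 * ((c.E + 1) * c.len c.t) := by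
    have t0 := c.len_zpow_le c.t ((c.E + 1 : ℕ) : ℤ)
    rw [Int.natAbs_natCast] at t0
    have t1 := hp.len_le (Nat.zero_le ib) (by omega)
    have t2 := hp.len_le (Nat.zero_le it) (by omega)
    rw [h0, inv_one, one_mul] at t1 t2
    have t3 := hp.len_le (show ib ≤ N by omega) le_rfl
    have t4 := hp.len_le (show it ≤ N by omega) le_rfl
    rw [hN] at t3 t4
    rcases le_total ib it with hle | hle
    · refine ⟨y * p it, y * g⁻¹ * p it, ?_, ?_, by group, ?_⟩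
      · rw [hm]; simp [hy]; ring
      · rw [hm]; simp [hy, hg]; ring
      · have t5 := hp.len_le hle (by omega)
        have t6 := c.len_mul (c.t ^ ((c.E + 1 : ℕ) : ℤ)) ((p ib)⁻¹ * p it)
        have t7 := c.len_mul3 (c.t ^ ((c.E + 1 : ℕ) : ℤ)) (p ib)⁻¹ (g⁻¹ * p it)
        rw [← c.len_inv, mul_inv_rev, inv_inv] at t4
        rw [c.len_inv] at t7
        simp only [hy, mul_assoc] at t6 t7 ⊢
        omega
    · refine ⟨y * g * p it, y * p it, ?_, ?_, by group, ?_⟩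
      · rw [hm]; simp [hy, hg]; ring
      · rw [hm]; simp [hy]; ring
      · have t5 := hp.len_le hle (by omega)
        have t6 := c.len_mul (c.t ^ ((c.E + 1 : ℕ) : ℤ)) ((p ib)⁻¹ * p it)
        have t7 := c.len_mul3 (c.t ^ ((c.E + 1 : ℕ) : ℤ)) ((p ib)⁻¹ * g) (p it)
        rw [← c.len_inv, mul_inv_rev, inv_inv] at t5
        simp only [hy, mul_assoc] at t6 t7 t3 ⊢
        omega
  have hv : c.v γ₁ = c.v γ₂ + ((c.k * z : ℤ) : ℚ) := by
    rw [g3, hconj, v_mul']; simp [add_comm]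
  refine ⟨m, c.k * z, ⌊c.v γ₁⌋ % (c.k : ℤ) ^ m, ⌊c.v γ₂⌋ % (c.k : ℤ) ^ m,
    by have := hmin it hit; omega, hXb, isConj_iff.2 ⟨y, hconj⟩,
    Int.emod_nonneg _ (kpos _).ne', Int.emod_lt_of_pos _ (kpos _), ?_, ?_⟩
  · have := (Int.mod_modEq ⌊c.v γ₁⌋ ((c.k : ℤ) ^ m)).sub (Int.mod_modEq ⌊c.v γ₂⌋ ((c.k : ℤ) ^ m))
    rwa [hv, Int.floor_add_intCast, add_sub_cancel_left, ← Int.floor_add_intCast, ← hv] at this
  · have := hC.red γ₁ m g1
    have := hC.red γ₂ m g2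
    omega

lemma CutConst.ab_part {C : ℕ} (hC : c.CutConst C) : ∃ K C' : ℕ, ∀ F : Finset G, NC F →
    (∀ g ∈ F, c.h g = 0) → ∀ x : ℝ, 0 ≤ x → x ≤ 1 → ∃ R : ℕ,
    x ^ C' * ∑ g ∈ F, x ^ c.len g ≤ ∑ n ∈ range R, K * c.A (n + 1) x ^ 2 / (n + 1) := by
  classical
  obtain ⟨K, C', H⟩ := hC.ab_data
  refine ⟨2 * K + 1, C' + 2 * C, fun F hF hh x hx hx1 => ?_⟩
  choose! m X y₁ y₂ a1 a2 a3 a4 a5 a6 a7 using fun g (hg : g ∈ F) => H g (hh g hg)
  refine ⟨F.sup m, ?_⟩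
  rw [← Finset.sum_fiberwise_of_maps_to (s := F) (t := range (F.sup m)) (g := fun g => m g - 1)
    (fun g hg => by
      have := Finset.le_sup (f := m) hg
      have := a1 g hg
      rw [Finset.mem_range]; omega), Finset.mul_sum]
  refine Finset.sum_le_sum fun n _ => ?_
  have kpos : ∀ n : ℕ, (0 : ℤ) < (c.k : ℤ) ^ n := fun n => by have := c.hk; positivity
  set M := n + 1 with hM
  have hmM : ∀ g ∈ F.filter (fun g => m g - 1 = n), g ∈ F ∧ m g = M := by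
    intro g hg
    rw [Finset.mem_filter] at hg
    have := a1 g hg.1
    exact ⟨hg.1, by omega⟩
  have h1 : ∑ p ∈ (F.filter (fun g => m g - 1 = n)) ×ˢ range M, x ^ (C' + 2 * C) * x ^ c.len p.1 ≤
      ∑ q ∈ Finset.Icc (-(K : ℤ)) K ×ˢ (range (c.k ^ M) ×ˢ range (c.k ^ M)),
        x ^ (c.L (q.2.1 : ℕ) M) * x ^ (c.L (q.2.2 : ℕ) M) := by
    refine sum_le_of_inj _ _ (fun p => (X p.1 / (c.k : ℤ) ^ M,
      ((y₁ p.1 + (c.k : ℤ) ^ p.2) % (c.k : ℤ) ^ M).toNat,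
      ((y₂ p.1 + (c.k : ℤ) ^ p.2) % (c.k : ℤ) ^ M).toNat)) _ _ ?_ ?_ ?_ (fun _ _ => by positivity)
    · rintro ⟨g, i⟩ hp
      rw [Finset.mem_product] at hp
      obtain ⟨hg, hgM⟩ := hmM g hp.1
      simp only [Finset.mem_product, Finset.mem_Icc]
      refine ⟨?_, c.mem_range_toNat (Int.emod_nonneg _ (kpos _).ne') (Int.emod_lt_of_pos _ (kpos _)),
        c.mem_range_toNat (Int.emod_nonneg _ (kpos _).ne') (Int.emod_lt_of_pos _ (kpos _))⟩
      have hb := abs_le.1 (a2 g hg)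
      rw [hgM] at hb
      exact ⟨(Int.le_ediv_iff_mul_le (kpos M)).2 (by linarith [hb.1]),
        Int.ediv_le_of_le_mul (kpos M) hb.2⟩
    · rintro ⟨g, i⟩ hp ⟨g', i'⟩ hp' h
      have hp := Finset.mem_product.1 (Finset.mem_coe.1 hp)
      have hp' := Finset.mem_product.1 (Finset.mem_coe.1 hp')
      obtain ⟨hg, hgM⟩ := hmM g hp.1
      obtain ⟨hg', hgM'⟩ := hmM g' hp'.1
      simp only [Prod.mk.injEq] at h
      obtain ⟨e1, e2, e3⟩ := h
      have e2' : y₁ g + (c.k : ℤ) ^ i ≡ y₁ g' + (c.k : ℤ) ^ i' [ZMOD (c.k : ℤ) ^ M] := by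
        have := Int.emod_nonneg (y₁ g + (c.k : ℤ) ^ i) (kpos M).ne'
        have := Int.emod_nonneg (y₁ g' + (c.k : ℤ) ^ i') (kpos M).ne'
        unfold Int.ModEq
        omega
      have e3' : y₂ g + (c.k : ℤ) ^ i ≡ y₂ g' + (c.k : ℤ) ^ i' [ZMOD (c.k : ℤ) ^ M] := by
        have := Int.emod_nonneg (y₂ g + (c.k : ℤ) ^ i) (kpos M).ne'
        have := Int.emod_nonneg (y₂ g' + (c.k : ℤ) ^ i') (kpos M).ne'
        unfold Int.ModEq
        omega
      have e4 := e2'.sub e3'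
      rw [add_sub_add_right_eq_sub, add_sub_add_right_eq_sub] at e4
      have b1 := a6 g hg
      have b2 := a6 g' hg'
      rw [hgM] at b1
      rw [hgM'] at b2
      have e5 : X g % (c.k : ℤ) ^ M = X g' % (c.k : ℤ) ^ M := (b1.symm.trans e4).trans b2
      have e6 : X g = X g' := by
        rw [← Int.emod_add_mul_ediv (X g) ((c.k : ℤ) ^ M), e5, e1, Int.emod_add_mul_ediv]
      have e7 : g = g' := hF g hg g' hg' ((a3 g hg).trans (by rw [e6]; exact (a3 g' hg').symm))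
      subst e7
      have e8 : (c.k : ℤ) ^ i % (c.k : ℤ) ^ M = (c.k : ℤ) ^ i' % (c.k : ℤ) ^ M :=
        Int.ModEq.add_left_cancel' _ e2'
      have hk1 : (1 : ℤ) < c.k := by have := c.hk; omega
      rw [Int.emod_eq_of_lt (kpos _).le (pow_lt_pow_right₀ hk1 (Finset.mem_range.1 hp.2)),
        Int.emod_eq_of_lt (kpos _).le (pow_lt_pow_right₀ hk1 (Finset.mem_range.1 hp'.2))] at e8
      have e9 : i = i' := pow_right_injective₀ (by omega) hk1.ne' e8
      rw [e9]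
    · rintro ⟨g, i⟩ hp
      rw [Finset.mem_product] at hp
      obtain ⟨hg, hgM⟩ := hmM g hp.1
      simp only
      rw [Int.toNat_of_nonneg (Int.emod_nonneg _ (kpos _).ne'),
        Int.toNat_of_nonneg (Int.emod_nonneg _ (kpos _).ne'), ← pow_add, ← pow_add]
      refine pow_le_pow_of_le_one hx hx1 ?_
      have hi := (Finset.mem_range.1 hp.2).le
      have t1 := hC.shift (y₁ g) i M hi
      have t2 := hC.shift (y₂ g) i M hi
      have t3 := a7 g hg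
      rw [hgM] at t3
      omega
  rw [Finset.sum_product, Finset.sum_product] at h1
  simp only [Finset.sum_const, Finset.card_range, nsmul_eq_mul, Int.card_Icc] at h1
  rw [← Finset.mul_sum, ← Finset.mul_sum, Finset.sum_product] at h1
  simp only at h1
  rw [← Finset.sum_mul_sum] at h1
  have e : ((K : ℤ) + 1 - -(K : ℤ)).toNat = 2 * K + 1 := by omega
  rw [e] at h1
  have hM0 : (0 : ℝ) < (n : ℝ) + 1 := by positivity
  rw [le_div_iff₀ hM0, sq]
  have eM : (M : ℝ) = n + 1 := by rw [hM]; push_cast; ring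
  rw [eM] at h1
  unfold A
  linarith

end Ctx

end Pool.Agent.P.MP_27e7ce_al
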