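import Mathlib

namespace Pool.Agent.P.MP_27e7ce_al

open Finset Filter Topology Polynomial

/-- A function with a logarithmic type blow-up satisfies no polynomial relation. -/
lemma no_relation {ι : Type} (l : Filter ι) [l.NeBot] (x s : ι → ℝ) (r : ℝ)
    (hx : Tendsto x l (𝓝 r)) (hxr : ∀ᶠ i in l, x i ≠ r) (hs : Tendsto s l atTop)
    (hxs : ∀ n : ℕ, Tendsto (fun i => (x i - r) * s i ^ n) l (𝓝 0))
    (P : ℝ[X][X]) (hP : P ≠ 0)
    (h0 : ∀ᶠ i in l, P.eval₂ (Polynomial.evalRingHom (x i)) (s i) = 0) : False := by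
  classical
  have hnu : ¬ IsUnit (C (X - C r) : ℝ[X][X]) := by
    rw [Polynomial.isUnit_C]
    exact Polynomial.not_isUnit_X_sub_C r
  obtain ⟨e, Q, hQ, rfl⟩ := WfDvdMonoid.max_power_factor' hP hnu
  have h1 : ∀ᶠ i in l, Q.eval₂ (Polynomial.evalRingHom (x i)) (s i) = 0 := by
    filter_upwards [h0, hxr] with i hi hi'
    rw [eval₂_mul, eval₂_pow, eval₂_C] at hi
    simp only [coe_evalRingHom, eval_sub, eval_X, eval_C, mul_eq_zero] at hi
    rcases hi with hi | hi
    · exact absurd (sub_eq_zero.1 (eq_zero_of_pow_eq_zero hi)) hi'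
    · exact hi
  rw [C_dvd_iff_dvd_coeff, not_forall] at hQ
  obtain ⟨j, hj⟩ := hQ
  set T := (range (Q.natDegree + 1)).filter fun i => ¬ (X - C r ∣ Q.coeff i) with hT
  have hne : T.Nonempty := by
    refine ⟨j, Finset.mem_filter.2 ⟨Finset.mem_range.2 ?_, hj⟩⟩
    by_contra h
    rw [coeff_eq_zero_of_natDegree_lt (by omega)] at hj
    exact hj (dvd_zero _)
  set i₀ := T.max' hne with hi₀
  have hi₀T := Finset.mem_filter.1 (T.max'_mem hne)
  rw [← hi₀] at hi₀T
  have hspos : ∀ᶠ i in l, 0 < s i := hs.eventually_gt_atTop 0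
  have lim : Tendsto (fun i => ∑ n ∈ range (Q.natDegree + 1),
      (Q.coeff n).eval (x i) * s i ^ n / s i ^ i₀) l
      (𝓝 (∑ n ∈ range (Q.natDegree + 1), if n = i₀ then (Q.coeff i₀).eval r else 0)) := by
    refine tendsto_finsetSum _ fun n hn => ?_
    have hc : ∀ p : ℝ[X], Tendsto (fun i => p.eval (x i)) l (𝓝 (p.eval r)) := fun p =>
      (p.continuous.tendsto r).comp hx
    rcases lt_trichotomy n i₀ with h | h | h
    · rw [if_neg h.ne]
      obtain ⟨d, hd⟩ := Nat.exists_eq_add_of_lt h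
      have h2 : Tendsto (fun i => (s i ^ (d + 1))⁻¹) l (𝓝 0) :=
        tendsto_inv_atTop_zero.comp ((tendsto_pow_atTop (by omega)).comp hs)
      have h3 := (hc (Q.coeff n)).mul h2
      rw [mul_zero] at h3
      refine h3.congr' ?_
      filter_upwards [hspos] with i hi
      rw [hd, add_assoc, pow_add _ n]
      field_simp
    · rw [if_pos h, h]
      refine (hc (Q.coeff i₀)).congr' ?_
      filter_upwards [hspos] with i hi
      field_simp
    · rw [if_neg h.ne']
      obtain ⟨d, hd⟩ := Nat.exists_eq_add_of_le h.le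
      have h2 : X - C r ∣ Q.coeff n := by
        by_contra h2
        have := T.le_max' n (Finset.mem_filter.2 ⟨hn, h2⟩)
        omega
      obtain ⟨q, hq⟩ := h2
      have h3 := (hc q).mul (hxs d)
      rw [mul_zero] at h3
      refine h3.congr' ?_
      filter_upwards [hspos] with i hi
      rw [hq, hd, pow_add]
      simp only [eval_mul, eval_sub, eval_X, eval_C]
      field_simp
  rw [Finset.sum_ite_eq' , if_pos hi₀T.1] at lim
  have lim0 : Tendsto (fun i => ∑ n ∈ range (Q.natDegree + 1),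
      (Q.coeff n).eval (x i) * s i ^ n / s i ^ i₀) l (𝓝 0) := by
    refine tendsto_const_nhds.congr' ?_
    filter_upwards [h1] with i hi
    rw [eval₂_eq_sum_range] at hi
    rw [← Finset.sum_div]
    simp only [coe_evalRingHom] at hi
    rw [hi, zero_div]
  exact hi₀T.2 (dvd_iff_isRoot.2 (tendsto_nhds_unique lim lim0))

/-- absolute convergence at `x` with sum `y` -/
def HasVal (x : ℝ) (f : PowerSeries ℚ) (y : ℝ) : Prop :=
  Summable (fun n => ‖((PowerSeries.coeff n f : ℚ) : ℝ) * x ^ n‖) ∧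
    ∑' n, ((PowerSeries.coeff n f : ℚ) : ℝ) * x ^ n = y

lemma HasVal.add {x : ℝ} {f g : PowerSeries ℚ} {y z : ℝ} (hf : HasVal x f y) (hg : HasVal x g z) :
    HasVal x (f + g) (y + z) := by
  have e : ∀ n, ((PowerSeries.coeff n (f + g) : ℚ) : ℝ) * x ^ n =
      ((PowerSeries.coeff n f : ℚ) : ℝ) * x ^ n + ((PowerSeries.coeff n g : ℚ) : ℝ) * x ^ n := by
    intro n; simp [add_mul]
  simp only [HasVal, e]
  exact ⟨(hf.1.add hg.1).of_nonneg_of_le (fun _ => norm_nonneg _) (fun _ => norm_add_le _ _),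
    by rw [hf.1.of_norm.tsum_add hg.1.of_norm, hf.2, hg.2]⟩

lemma HasVal.mul {x : ℝ} {f g : PowerSeries ℚ} {y z : ℝ} (hf : HasVal x f y) (hg : HasVal x g z) :
    HasVal x (f * g) (y * z) := by
  have e : ∀ n, ((PowerSeries.coeff n (f * g) : ℚ) : ℝ) * x ^ n =
      ∑ kl ∈ antidiagonal n, (((PowerSeries.coeff kl.1 f : ℚ) : ℝ) * x ^ kl.1) *
        (((PowerSeries.coeff kl.2 g : ℚ) : ℝ) * x ^ kl.2) := by
    intro n
    rw [PowerSeries.coeff_mul]
    push_cast
    rw [Finset.sum_mul]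
    refine Finset.sum_congr rfl fun kl hkl => ?_
    rw [← Finset.HasAntidiagonal.mem_antidiagonal.1 hkl, pow_add]; ring
  have h1 := summable_norm_sum_mul_antidiagonal_of_summable_norm hf.1 hg.1
  have h2 := tsum_mul_tsum_eq_tsum_sum_antidiagonal_of_summable_norm hf.1 hg.1
  rw [hf.2, hg.2] at h2
  refine ⟨h1.congr fun n => by rw [e], ?_⟩
  rw [h2]
  exact tsum_congr e

lemma hasVal_poly (x : ℝ) (p : ℚ[X]) :
    HasVal x (algebraMap ℚ[X] (PowerSeries ℚ) p) ((p.map (algebraMap ℚ ℝ)).eval x) := by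
  have e : ∀ n, PowerSeries.coeff n (algebraMap ℚ[X] (PowerSeries ℚ) p) = p.coeff n := by
    intro n
    rw [PowerSeries.algebraMap_apply']
    simp
  have z : ∀ n ∉ range (p.natDegree + 1), ((p.coeff n : ℚ) : ℝ) * x ^ n = 0 := by
    intro n hn
    rw [coeff_eq_zero_of_natDegree_lt (by simpa [Nat.lt_succ_iff] using hn)]
    simp
  simp only [HasVal, e]
  refine ⟨summable_of_ne_finset_zero (s := range (p.natDegree + 1)) fun n hn => by
    rw [z n hn, norm_zero], ?_⟩
  rw [tsum_eq_sum z, eval_map, eval₂_eq_sum_range]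
  rfl

lemma HasVal.pow {x : ℝ} {f : PowerSeries ℚ} {y : ℝ} (hf : HasVal x f y) (n : ℕ) :
    HasVal x (f ^ n) (y ^ n) := by
  induction n with
  | zero => simpa using hasVal_poly x 1
  | succ n ih => rw [pow_succ, pow_succ]; exact ih.mul hf

lemma HasVal.aeval {x : ℝ} {f : PowerSeries ℚ} {y : ℝ} (hf : HasVal x f y) (P : ℚ[X][X]) :
    HasVal x (Polynomial.aeval f P)
      ((P.map (Polynomial.mapRingHom (algebraMap ℚ ℝ))).eval₂ (Polynomial.evalRingHom x) y) := by
  induction P using Polynomial.induction_on' with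
  | add p q hp hq => simpa [eval₂_add] using hp.add hq
  | monomial n a =>
    rw [aeval_monomial, Polynomial.map_monomial, eval₂_monomial]
    exact (hasVal_poly x a).mul (hf.pow n)

theorem transcendental_of_log (f : PowerSeries ℚ) (hf : ∀ n, 0 ≤ PowerSeries.coeff n f)
    (r : ℝ) (hr : 0 < r) (D : ℕ) (hD : 1 ≤ D) (K : ℝ)
    (hup : ∀ ρ : ℝ, 1 / 2 ≤ ρ → ρ < 1 → ∀ N : ℕ,
      ∑ n ∈ range N, ((PowerSeries.coeff n f : ℚ) : ℝ) * (r * ρ ^ D) ^ n ≤
        K * (1 - Real.log (1 - ρ)))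
    (hlow : ∀ B : ℝ, ∀ᶠ ρ in 𝓝 (1 : ℝ), 0 ≤ ρ → ρ ≤ 1 → ∃ N : ℕ,
      B ≤ ∑ n ∈ range N, ((PowerSeries.coeff n f : ℚ) : ℝ) * (r * ρ ^ D) ^ n) :
    Transcendental ℚ[X] f := by
  rintro ⟨P, hP0, hP⟩
  set ρ : ℝ → ℝ := fun y => 1 - Real.exp (-y) with hρ
  have hρ1 : ∀ y, ρ y < 1 := fun y => by simp [hρ, Real.exp_pos]
  have hρl : Tendsto ρ atTop (𝓝 1) := by
    simpa [hρ] using (tendsto_const_nhds (x := (1 : ℝ))).sub Real.tendsto_exp_neg_atTop_nhds_zero
  have hρh : ∀ᶠ y in atTop, 1 / 2 ≤ ρ y := hρl.eventually (eventually_ge_nhds (by norm_num))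
  set x : ℝ → ℝ := fun y => r * ρ y ^ D with hx
  set s : ℝ → ℝ := fun y => ∑' n, ((PowerSeries.coeff n f : ℚ) : ℝ) * x y ^ n with hs
  have hnn : ∀ y, 1 / 2 ≤ ρ y → ∀ n, 0 ≤ ((PowerSeries.coeff n f : ℚ) : ℝ) * x y ^ n := by
    intro y hy n
    have : 0 ≤ ρ y := by linarith
    have : (0 : ℝ) ≤ ((PowerSeries.coeff n f : ℚ) : ℝ) := by exact_mod_cast hf n
    positivity
  have hsum : ∀ y, 1 / 2 ≤ ρ y →
      Summable fun n => ((PowerSeries.coeff n f : ℚ) : ℝ) * x y ^ n := fun y hy =>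
    summable_of_sum_range_le (hnn y hy) (hup _ hy (hρ1 y))
  have hsle : ∀ y, 1 / 2 ≤ ρ y → s y ≤ K * (1 + y) := by
    intro y hy
    have := Real.tsum_le_of_sum_range_le (hnn y hy) (hup _ hy (hρ1 y))
    simpa [hρ] using this
  refine no_relation atTop x s r ?_ ?_ ?_ ?_ (P.map (Polynomial.mapRingHom (algebraMap ℚ ℝ)))
    ?_ ?_
  · simpa [hx] using (hρl.pow D).const_mul r
  · filter_upwards [hρh] with y hy
    have : ρ y ^ D < 1 := pow_lt_one₀ (by linarith) (hρ1 y) (by omega)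
    exact (mul_lt_of_lt_one_right hr this).ne
  · refine tendsto_atTop.2 fun B => ?_
    filter_upwards [hρh, hρl.eventually (hlow B)] with y hy hy'
    obtain ⟨N, hN⟩ := hy' (by linarith) (hρ1 y).le
    exact hN.trans ((hsum y hy).sum_le_tsum _ fun n _ => hnn y hy n)
  · intro n
    have h1 : Tendsto (fun y : ℝ => (r * D * K ^ n * Real.exp 1) *
        ((y + 1) ^ n * Real.exp (-(y + 1)))) atTop (𝓝 0) := by
      have := ((Real.tendsto_pow_mul_exp_neg_atTop_nhds_zero n).comp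
        (tendsto_atTop_add_const_right atTop 1 tendsto_id)).const_mul (r * D * K ^ n * Real.exp 1)
      simpa using this
    refine squeeze_zero_norm' ?_ h1
    filter_upwards [hρh] with y hy
    have hs0 : 0 ≤ s y := tsum_nonneg (hnn y hy)
    have h2 : 1 - ρ y ^ D ≤ D * Real.exp (-y) := by
      have := one_add_mul_le_pow (a := -Real.exp (-y)) (by have := hρ1 y; simp only [hρ] at hy; linarith) D
      simp only [hρ, sub_eq_add_neg]
      linarith
    have h3 : ρ y ^ D ≤ 1 := pow_le_one₀ (by linarith) (hρ1 y).le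
    have h4 : |x y - r| ≤ r * (D * Real.exp (-y)) := by
      rw [abs_sub_comm, abs_of_nonneg (by simp only [hx]; nlinarith)]
      simp only [hx]; nlinarith
    have h5 : s y ^ n ≤ (K * (1 + y)) ^ n := pow_le_pow_left₀ hs0 (hsle y hy) n
    rw [Real.norm_eq_abs, abs_mul, abs_of_nonneg (pow_nonneg hs0 n)]
    calc |x y - r| * s y ^ n ≤ r * (D * Real.exp (-y)) * (K * (1 + y)) ^ n := by gcongr
      _ = _ := by
        rw [neg_add, Real.exp_add, mul_pow, add_comm y 1, Real.exp_neg 1]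
        have := Real.exp_pos 1
        field_simp
  · exact (Polynomial.map_ne_zero_iff (Polynomial.map_injective _ (algebraMap ℚ ℝ).injective)).2 hP0
  · filter_upwards [hρh] with y hy
    have h1 : HasVal (x y) f (s y) :=
      ⟨(hsum y hy).congr fun n => (Real.norm_of_nonneg (hnn y hy n)).symm, rfl⟩
    have h2 := (h1.aeval P).2
    rw [hP] at h2
    simpa using h2.symm

end Pool.Agent.P.MP_27e7ce_al
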