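import Pool.Agent.P.MP_27e7ce_al.Ab

namespace Pool.Agent.P.MP_27e7ce_al

open Finset

lemma log_partial {ρ : ℝ} (h0 : 0 ≤ ρ) (h1 : ρ < 1) (R : ℕ) :
    ∑ n ∈ range R, ρ ^ (n + 1) / (n + 1) ≤ -Real.log (1 - ρ) :=
  sum_le_hasSum _ (fun _ _ => by positivity)
    (Real.hasSum_pow_div_log_of_abs_lt_one (by rw [abs_of_nonneg h0]; exact h1))

lemma geom_partial {s : ℝ} (h0 : 0 ≤ s) (h1 : s < 1) :
    ∃ K : ℝ, 0 ≤ K ∧ ∀ R : ℕ, ∑ n ∈ range R, (((n + 1 : ℕ) : ℝ) + 1) * s ^ (n + 1) ≤ K := by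
  have hs : ‖s‖ < 1 := by rw [Real.norm_eq_abs, abs_of_nonneg h0]; exact h1
  have h2 : Summable fun n : ℕ => ((n : ℝ) + 1) * s ^ n := by
    have := (summable_pow_mul_geometric_of_norm_lt_one 1 hs).add (summable_geometric_of_norm_lt_one hs)
    refine this.congr fun n => ?_
    ring
  have h3 := (summable_nat_add_iff 1).2 h2
  refine ⟨∑' n : ℕ, (((n + 1 : ℕ) : ℝ) + 1) * s ^ (n + 1), tsum_nonneg fun n => by positivity,
    fun R => h3.sum_le_tsum _ fun n _ => by positivity⟩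

namespace Ctx

variable {G : Type} [Group G] {c : Ctx G}

lemma CutConst.upper {C : ℕ} (hC : c.CutConst C) {r : ℝ} (hr0 : 0 < r) (hr1 : r < 1)
    (hA : ∀ m, c.A m r ≤ 1) : ∃ K : ℝ, 0 ≤ K ∧ ∀ ρ : ℝ, 1 / 2 ≤ ρ → ρ < 1 → ∀ F : Finset G, NC F →
    ∑ g ∈ F, (r * ρ ^ c.D) ^ c.len g ≤ K * (1 - Real.log (1 - ρ)) := by
  classical
  obtain ⟨K₁, C', hab⟩ := hC.ab_part
  have hD := c.D_pos
  set s : ℝ := r ^ (((2 * c.D : ℕ) : ℝ)⁻¹) with hs
  have hs0 : 0 ≤ s := Real.rpow_nonneg hr0.le _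
  have hs1 : s < 1 := Real.rpow_lt_one hr0.le hr1 (by positivity)
  have hsr : s ^ (2 * c.D) = r := Real.rpow_inv_natCast_pow hr0.le (by omega)
  obtain ⟨K₂, hK₂, hK₂'⟩ := geom_partial hs0 hs1
  set x₀ : ℝ := r * (1 / 2) ^ c.D with hx₀
  have hx₀0 : 0 < x₀ := by positivity
  refine ⟨K₁ / x₀ ^ C' + 2 * ((2 + K₂) / x₀ ^ (2 * C)), by positivity, fun ρ hρ0 hρ1 F hF => ?_⟩
  have hρ : 0 ≤ ρ := by linarith
  set x := r * ρ ^ c.D with hx
  have hx1 : x₀ ≤ x := by rw [hx₀, hx]; gcongr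
  have hx0 : 0 ≤ x := hx₀0.le.trans hx1
  have hxr : x ≤ r := mul_le_of_le_one_right hr0.le (pow_le_one₀ hρ hρ1.le)
  have hx2 : x ≤ 1 := hxr.trans hr1.le
  have hAx : ∀ m, c.A m x ≤ ρ ^ m := fun m =>
    (c.A_scale m hr0.le hρ hρ1.le).trans (mul_le_of_le_one_right (pow_nonneg hρ _) (hA m))
  have hAx1 : ∀ m, c.A m x ≤ 1 := fun m => (hAx m).trans (pow_le_one₀ hρ hρ1.le)
  set ℓ := -Real.log (1 - ρ) with hℓ
  have hℓ0 : 0 ≤ ℓ := by simpa [hℓ] using log_partial hρ hρ1 0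
  have pos : ∀ F : Finset G, NC F → (∀ g ∈ F, 0 < c.h g) →
      ∑ g ∈ F, x ^ c.len g ≤ (2 + K₂) / x₀ ^ (2 * C) * (1 + ℓ) := by
    intro F hF hh
    set R := F.sup fun g => (c.h g).toNat with hR
    have h1 : x ^ (2 * C) * ∑ g ∈ F, x ^ c.len g ≤ 2 * ℓ + K₂ := by
      rw [← Finset.sum_fiberwise_of_maps_to (s := F) (t := range R)
        (g := fun g => (c.h g).toNat - 1) (fun g hg => by
          have : (c.h g).toNat ≤ R := Finset.le_sup (f := fun g => (c.h g).toNat) hg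
          have := hh g hg
          rw [Finset.mem_range]; omega), Finset.mul_sum]
      have h2 : ∀ n ∈ range R, x ^ (2 * C) * ∑ g ∈ F with (c.h g).toNat - 1 = n, x ^ c.len g ≤
          2 * (ρ ^ (n + 1) / (n + 1)) + (((n + 1 : ℕ) : ℝ) + 1) * s ^ (n + 1) := by
        intro n _
        refine (hC.pos_part (m := n + 1) (by omega) _
          (fun g hg g' hg' => hF g (Finset.mem_filter.1 hg).1 g' (Finset.mem_filter.1 hg').1)
          (fun g hg => by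
            rw [Finset.mem_filter] at hg
            have := hh g hg.1
            have := hg.2
            push_cast; omega) hx0 hx2 hs0 hs1.le (by rw [hsr]; exact hxr) hAx1).trans ?_
        have := hAx (n + 1)
        have h3 : 2 / ((n + 1 : ℕ) : ℝ) * c.A (n + 1) x ≤ 2 / ((n + 1 : ℕ) : ℝ) * ρ ^ (n + 1) := by
          gcongr
        have h4 : 2 / ((n + 1 : ℕ) : ℝ) * ρ ^ (n + 1) = 2 * (ρ ^ (n + 1) / (n + 1)) := by
          push_cast; ring
        linarith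
      refine (Finset.sum_le_sum h2).trans ?_
      rw [Finset.sum_add_distrib, ← Finset.mul_sum]
      have := log_partial hρ hρ1 R
      have := hK₂' R
      linarith
    have hS : 0 ≤ ∑ g ∈ F, x ^ c.len g := Finset.sum_nonneg fun _ _ => pow_nonneg hx0 _
    rw [div_mul_eq_mul_div, le_div_iff₀ (by positivity)]
    have h5 : x₀ ^ (2 * C) ≤ x ^ (2 * C) := by gcongr
    nlinarith [mul_nonneg hK₂ hℓ0, mul_le_mul_of_nonneg_left h5 hS]
  have neg : ∀ F : Finset G, NC F → (∀ g ∈ F, c.h g < 0) →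
      ∑ g ∈ F, x ^ c.len g ≤ (2 + K₂) / x₀ ^ (2 * C) * (1 + ℓ) := by
    intro F hF hh
    refine le_trans (le_of_eq ?_) (pos (F.image (·⁻¹)) ?_ ?_)
    · rw [Finset.sum_image (fun _ _ _ _ h => inv_injective h)]
      simp [c.len_inv]
    · intro g₀ hg₀ g₁ hg₁ h
      obtain ⟨g, hg, rfl⟩ := Finset.mem_image.1 hg₀
      obtain ⟨g', hg', rfl⟩ := Finset.mem_image.1 hg₁
      obtain ⟨y, hy⟩ := isConj_iff.1 h
      rw [hF g hg g' hg' (isConj_iff.2 ⟨y, by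
        rw [← inv_inj, ← hy]; group⟩)]
    · intro g₀ hg₀
      obtain ⟨g, hg, rfl⟩ := Finset.mem_image.1 hg₀
      have := hh g hg
      simp only [h_inv]; omega
  have zer : ∀ F : Finset G, NC F → (∀ g ∈ F, c.h g = 0) →
      ∑ g ∈ F, x ^ c.len g ≤ K₁ / x₀ ^ C' * (1 + ℓ) := by
    intro F hF hh
    obtain ⟨R, hR⟩ := hab F hF hh x hx0 hx2
    have h2 : ∑ n ∈ range R, (K₁ : ℝ) * c.A (n + 1) x ^ 2 / (n + 1) ≤ K₁ * ℓ := by
      refine le_trans ?_ (mul_le_mul_of_nonneg_left (log_partial hρ hρ1 R) (by positivity))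
      rw [Finset.mul_sum]
      refine Finset.sum_le_sum fun n _ => ?_
      rw [mul_div_assoc]
      have h3 : c.A (n + 1) x ^ 2 ≤ ρ ^ (n + 1) := by
        have := c.A_nonneg (n + 1) hx0
        have := hAx (n + 1)
        have := hAx1 (n + 1)
        nlinarith
      gcongr
    have hS : 0 ≤ ∑ g ∈ F, x ^ c.len g := Finset.sum_nonneg fun _ _ => pow_nonneg hx0 _
    rw [div_mul_eq_mul_div, le_div_iff₀ (by positivity)]
    have h5 : x₀ ^ C' ≤ x ^ C' := by gcongr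
    have : (0 : ℝ) ≤ K₁ := by positivity
    nlinarith [mul_le_mul_of_nonneg_left h5 hS]
  have sub : ∀ P : G → Prop, ∀ _ : DecidablePred P, NC (F.filter P) := fun P _ g hg g' hg' =>
    hF g (Finset.mem_filter.1 hg).1 g' (Finset.mem_filter.1 hg').1
  have e : ∑ g ∈ F, x ^ c.len g = ∑ g ∈ F with c.h g = 0, x ^ c.len g +
      (∑ g ∈ F with 0 < c.h g, x ^ c.len g + ∑ g ∈ F with c.h g < 0, x ^ c.len g) := by
    simp only [Finset.sum_filter, ← Finset.sum_add_distrib]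
    refine Finset.sum_congr rfl fun g _ => ?_
    split_ifs <;> first | omega | simp
  have t1 := zer _ (sub (fun g => c.h g = 0) _) (fun g hg => (Finset.mem_filter.1 hg).2)
  have t2 := pos _ (sub (fun g => 0 < c.h g) _) (fun g hg => (Finset.mem_filter.1 hg).2)
  have t3 := neg _ (sub (fun g => c.h g < 0) _) (fun g hg => (Finset.mem_filter.1 hg).2)
  have e2 : 1 - Real.log (1 - ρ) = 1 + ℓ := by rw [hℓ]; ring
  rw [e, e2]
  linarith

variable (c)

lemma conj_mod {u u' : ℤ} {m : ℕ} (hm : 1 ≤ m) (h : IsConj (c.el u m) (c.el u' m)) :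
    ∃ i < m, u' ≡ (c.k : ℤ) ^ i * u [ZMOD (c.k : ℤ) ^ m - 1] := by
  obtain ⟨y, hy⟩ := isConj_iff.1 h
  have h1 := c.v_conj y (c.el u m)
  rw [hy] at h1
  simp only [v_el, h_el, zpow_natCast] at h1
  obtain ⟨e, z, hz⟩ := c.frac y
  set n := e + (c.h y).natAbs with hn
  have hnm : n ≤ m * n := Nat.le_mul_of_pos_left _ hm
  obtain ⟨J, hJ⟩ : ∃ J : ℕ, (J : ℤ) = (m * n : ℕ) + c.h y :=
    ⟨((m * n : ℕ) + c.h y).toNat, by omega⟩
  obtain ⟨d, hd⟩ := Nat.exists_eq_add_of_le (show e ≤ m * n by omega)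
  have h2 : (c.k : ℤ) ^ (m * n) * u' =
      (c.k : ℤ) ^ J * u + (1 - (c.k : ℤ) ^ m) * ((c.k : ℤ) ^ d * z) := by
    have : (c.k : ℚ) ^ (m * n) * u' =
        (c.k : ℚ) ^ J * u + (1 - (c.k : ℚ) ^ m) * ((c.k : ℚ) ^ d * z) := by
      rw [h1, ← hz, ← zpow_natCast _ J, hJ, zpow_add₀ c.k_ne, zpow_natCast, hd]
      ring
    exact_mod_cast this
  have k1 : (c.k : ℤ) ^ m ≡ 1 [ZMOD (c.k : ℤ) ^ m - 1] :=
    (Int.modEq_iff_dvd.2 (dvd_refl _)).symm
  have k2 : ∀ a : ℕ, (c.k : ℤ) ^ (m * a) ≡ 1 [ZMOD (c.k : ℤ) ^ m - 1] := fun a => by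
    simpa [pow_mul] using k1.pow a
  refine ⟨J % m, Nat.mod_lt _ hm, ?_⟩
  have h3 : u' ≡ (c.k : ℤ) ^ (m * n) * u' [ZMOD (c.k : ℤ) ^ m - 1] := by
    simpa using ((k2 n).mul_right u').symm
  have h4 : (c.k : ℤ) ^ (m * n) * u' ≡ (c.k : ℤ) ^ J * u [ZMOD (c.k : ℤ) ^ m - 1] := by
    rw [h2]
    refine Int.modEq_iff_dvd.2 ⟨(c.k : ℤ) ^ d * z, by ring⟩
  have h5 : (c.k : ℤ) ^ J * u ≡ (c.k : ℤ) ^ (J % m) * u [ZMOD (c.k : ℤ) ^ m - 1] := by
    conv_lhs => rw [← Nat.div_add_mod J m, pow_add, mul_assoc]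
    simpa using (k2 (J / m)).mul_right ((c.k : ℤ) ^ (J % m) * u)
  exact (h3.trans h4).trans h5

/-- length of a conjugacy class -/
noncomputable def cl (κ : ConjClasses G) : ℕ :=
  sInf {n : ℕ | ∃ g : G, ConjClasses.mk g = κ ∧ c.len g = n}

lemma cl_le (g : G) : c.cl (ConjClasses.mk g) ≤ c.len g := Nat.sInf_le ⟨g, rfl, rfl⟩

lemma exists_cl (κ : ConjClasses G) : ∃ g : G, ConjClasses.mk g = κ ∧ c.len g = c.cl κ := by
  obtain ⟨g, rfl⟩ := ConjClasses.exists_rep κ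
  exact Nat.sInf_mem (s := {n : ℕ | ∃ g' : G, ConjClasses.mk g' = ConjClasses.mk g ∧ c.len g' = n})
    ⟨_, g, rfl, rfl⟩

lemma lower {x : ℝ} (hx : 0 ≤ x) (hx1 : x ≤ 1) (M : ℕ) : ∃ Cs : Finset (ConjClasses G),
    ∑ n ∈ range M, c.A (n + 1) x / (n + 2) ≤ ∑ κ ∈ Cs, x ^ c.cl κ := by
  classical
  set φ : ℕ → ℕ → ConjClasses G := fun m u => ConjClasses.mk (c.el (u : ℕ) m) with hφ
  refine ⟨(range M).biUnion fun n => (range (c.k ^ (n + 1))).image (φ (n + 1)), ?_⟩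
  rw [Finset.sum_biUnion]
  · refine Finset.sum_le_sum fun n _ => ?_
    set m := n + 1 with hm
    rw [div_le_iff₀ (by positivity)]
    have h1 : c.A m x ≤ ∑ u ∈ range (c.k ^ m), x ^ c.cl (φ m u) :=
      Finset.sum_le_sum fun u _ => pow_le_pow_of_le_one hx hx1 (c.cl_le _)
    refine h1.trans ?_
    rw [Finset.sum_comp (fun κ => x ^ c.cl κ) (φ m), Finset.sum_mul]
    refine Finset.sum_le_sum fun κ hκ => ?_
    obtain ⟨u₀, _, rfl⟩ := Finset.mem_image.1 hκ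
    rw [nsmul_eq_mul, mul_comm]
    refine mul_le_mul_of_nonneg_left ?_ (pow_nonneg hx _)
    have hQ := c.Q_pos (show 1 ≤ m by omega)
    have h2 : #{u ∈ range (c.k ^ m) | φ m u = φ m u₀} ≤
        #(insert (c.k ^ m - 1) ((range m).image
          fun i => (((c.k : ℤ) ^ i * u₀) % ((c.k : ℤ) ^ m - 1)).toNat)) := by
      refine Finset.card_le_card fun u hu => ?_
      rw [Finset.mem_filter, Finset.mem_range] at hu
      obtain ⟨i, hi, h⟩ := c.conj_mod (show 1 ≤ m by omega)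
        (ConjClasses.mk_eq_mk_iff_isConj.1 hu.2.symm)
      rw [Finset.mem_insert]
      by_cases hu1 : u = c.k ^ m - 1
      · exact Or.inl hu1
      · right
        refine Finset.mem_image.2 ⟨i, Finset.mem_range.2 hi, ?_⟩
        rw [← h, Int.emod_eq_of_lt (by positivity)]
        · simp
        · have : u + 1 < c.k ^ m := by have := hu.1; omega
          have : ((u + 1 : ℕ) : ℤ) < ((c.k ^ m : ℕ) : ℤ) := by exact_mod_cast this
          push_cast at this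
          omega
    have h3 := h2.trans ((Finset.card_insert_le _ _).trans
      (Nat.succ_le_succ Finset.card_image_le))
    rw [Finset.card_range] at h3
    exact_mod_cast h3
  · intro n _ n' _ hne
    rw [Function.onFun, Finset.disjoint_left]
    intro κ h1 h2
    obtain ⟨u, _, rfl⟩ := Finset.mem_image.1 h1
    obtain ⟨u', _, h⟩ := Finset.mem_image.1 h2
    have := c.h_conj (ConjClasses.mk_eq_mk_iff_isConj.1 h)
    simp only [h_el] at this
    omega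

end Ctx

end Pool.Agent.P.MP_27e7ce_al
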