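import Pool.Agent.P.MP_27e7ce_al.Model

namespace Pool.Agent.P.MP_27e7ce_al

open Finset

section Word

variable {G : Type} [Group G] {S : Set G}

lemma word_exists (hS : Subgroup.closure S = ⊤) (g : G) :
    ∃ w : List G, w.length = wordLength S g ∧ (∀ s ∈ w, s ∈ S ∨ s⁻¹ ∈ S) ∧ w.prod = g := by
  have hne : {n : ℕ | ∃ w : List G, w.length = n ∧ (∀ s ∈ w, s ∈ S ∨ s⁻¹ ∈ S) ∧
      w.prod = g}.Nonempty := by
    have hg : g ∈ Subgroup.closure S := by rw [hS]; trivial
    have hg' : g ∈ (Subgroup.closure S).toSubmonoid := hg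
    rw [Subgroup.closure_toSubmonoid] at hg'
    obtain ⟨l, hl, hl'⟩ := Submonoid.exists_list_of_mem_closure hg'
    refine ⟨l.length, l, rfl, fun s hs => ?_, hl'⟩
    rcases hl s hs with h | h
    · exact Or.inl h
    · exact Or.inr (by simpa using h)
  exact Nat.sInf_mem hne

lemma wordLength_le {g : G} (w : List G) (hw : ∀ s ∈ w, s ∈ S ∨ s⁻¹ ∈ S) (hg : w.prod = g) :
    wordLength S g ≤ w.length :=
  Nat.sInf_le ⟨w, rfl, hw, hg⟩

lemma wordLength_inv_le (hS : Subgroup.closure S = ⊤) (g : G) :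
    wordLength S g⁻¹ ≤ wordLength S g := by
  obtain ⟨w, h1, h2, h3⟩ := word_exists hS g
  have := wordLength_le (S := S) (g := g⁻¹) (w.map (·⁻¹)).reverse (by
    intro s hs
    simp only [List.mem_reverse, List.mem_map] at hs
    obtain ⟨u, hu, rfl⟩ := hs
    rcases h2 u hu with h | h
    · exact Or.inr (by simpa using h)
    · exact Or.inl h) (by rw [← h3, List.prod_inv_reverse])
  simpa [h1] using this

end Word

/-- All the data used in the proof. -/
structure Ctx (G : Type) [Group G] extends Model G where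
  len : G → ℕ
  T : Finset G
  len_one : len 1 = 0
  len_mul : ∀ g g', len (g * g') ≤ len g + len g'
  len_inv : ∀ g, len g⁻¹ = len g
  len_T : ∀ s ∈ T, len s ≤ 1
  inv_T : ∀ s ∈ T, s⁻¹ ∈ T
  path : ∀ g, ∃ p : ℕ → G, p 0 = 1 ∧ p (len g) = g ∧ ∀ i < len g, (p i)⁻¹ * p (i + 1) ∈ T
  D : ℕ
  E : ℕ
  V : ℕ
  D_pos : 1 ≤ D
  hD : ∀ s ∈ T, |h s| ≤ D
  hE : ∀ s ∈ T, ∃ z : ℤ, v s * (k : ℚ) ^ E = z
  hV : ∀ s ∈ T, |v s| ≤ V

lemma exists_ctx {G : Type} [Group G] (M : Model G) (S : Finset G)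
    (hS : Subgroup.closure (S : Set G) = ⊤) :
    ∃ c : Ctx G, c.len = wordLength (S : Set G) := by
  classical
  set T : Finset G := S ∪ S.image (·⁻¹) with hT
  have hmem : ∀ s, s ∈ T ↔ (s ∈ (S : Set G) ∨ s⁻¹ ∈ (S : Set G)) := by
    intro s
    simp only [hT, mem_union, mem_image, mem_coe]
    constructor
    · rintro (h | ⟨u, hu, rfl⟩)
      · exact Or.inl h
      · exact Or.inr (by simpa using hu)
    · rintro (h | h)
      · exact Or.inl h
      · exact Or.inr ⟨s⁻¹, h, by simp⟩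
  obtain ⟨D, hD⟩ : ∃ D : ℕ, ∀ s ∈ T, |M.h s| ≤ D := by
    refine ⟨T.sup fun s => (M.h s).natAbs, fun s hs => ?_⟩
    have := Finset.le_sup (f := fun s => (M.h s).natAbs) hs
    rw [Int.abs_eq_natAbs]
    exact_mod_cast this
  obtain ⟨V, hV⟩ : ∃ V : ℕ, ∀ s ∈ T, |M.v s| ≤ V := by
    refine ⟨T.sup fun s => ⌈|M.v s|⌉₊, fun s hs => ?_⟩
    have := Finset.le_sup (f := fun s => ⌈|M.v s|⌉₊) hs
    exact (Nat.le_ceil _).trans (by exact_mod_cast this)
  obtain ⟨E, hE⟩ : ∃ E : ℕ, ∀ s ∈ T, ∃ z : ℤ, M.v s * (M.k : ℚ) ^ E = z := by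
    choose e z hz using M.frac
    refine ⟨T.sup e, fun s hs => ?_⟩
    have h1 : e s ≤ T.sup e := Finset.le_sup (f := e) hs
    obtain ⟨d, hd⟩ := Nat.exists_eq_add_of_le h1
    refine ⟨z s * (M.k : ℤ) ^ d, ?_⟩
    rw [hd, pow_add, ← mul_assoc, hz]
    push_cast; ring
  refine ⟨{ M with
    len := wordLength (S : Set G)
    T := T
    len_one := ?_
    len_mul := ?_
    len_inv := ?_
    len_T := ?_
    inv_T := ?_
    path := ?_
    D := D + 1
    E := E
    V := V
    D_pos := by omega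
    hD := fun s hs => (hD s hs).trans (by push_cast; linarith)
    hE := hE
    hV := hV }, rfl⟩
  · have := wordLength_le (S := (S : Set G)) (g := 1) [] (by simp) (by simp)
    simpa using this
  · intro g g'
    obtain ⟨w, h1, h2, h3⟩ := word_exists hS g
    obtain ⟨w', h1', h2', h3'⟩ := word_exists hS g'
    have := wordLength_le (S := (S : Set G)) (g := g * g') (w ++ w') (by
      intro s hs
      rcases List.mem_append.1 hs with h | h
      · exact h2 s h
      · exact h2' s h) (by rw [List.prod_append, h3, h3'])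
    simpa [h1, h1'] using this
  · intro g
    refine le_antisymm (wordLength_inv_le hS g) ?_
    simpa using wordLength_inv_le hS g⁻¹
  · intro s hs
    have := wordLength_le (S := (S : Set G)) (g := s) [s] (by simpa using (hmem s).1 hs) (by simp)
    simpa using this
  · intro s hs
    rw [hmem] at hs ⊢
    rcases hs with h | h
    · exact Or.inr (by simpa using h)
    · exact Or.inl h
  · intro g
    obtain ⟨w, h1, h2, h3⟩ := word_exists hS g
    refine ⟨fun i => (w.take i).prod, by simp, by rw [← h1]; simpa using h3, fun i hi => ?_⟩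
    rw [← h1] at hi
    simp only [List.prod_take_succ w i hi, inv_mul_cancel_left]
    exact (hmem _).2 (h2 _ (List.getElem_mem hi))

namespace Ctx

variable {G : Type} [Group G] (c : Ctx G)

lemma k_pos : (0 : ℚ) < c.k := by have := c.hk; positivity

lemma k_ne : (c.k : ℚ) ≠ 0 := c.k_pos.ne'

lemma one_le_k : (1 : ℚ) ≤ c.k := by have := c.hk; exact_mod_cast (by omega : 1 ≤ c.k)

lemma two_le_k : (2 : ℚ) ≤ c.k := by exact_mod_cast c.hk

@[simp] lemma h_one : c.h 1 = 0 := by
  have := c.h_mul 1 1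
  rw [one_mul] at this; omega

@[simp] lemma v_one : c.v 1 = 0 := by
  have := c.v_mul 1 1
  rw [one_mul, h_one, zpow_zero, one_mul] at this; linarith

@[simp] lemma h_mul' (g g' : G) : c.h (g * g') = c.h g + c.h g' := c.h_mul g g'

lemma v_mul' (g g' : G) : c.v (g * g') = c.v g + (c.k : ℚ) ^ (c.h g) * c.v g' := c.v_mul g g'

@[simp] lemma h_inv (g : G) : c.h g⁻¹ = -c.h g := by
  have := c.h_mul g g⁻¹
  rw [mul_inv_cancel, h_one] at this; omega

lemma v_inv (g : G) : c.v g⁻¹ = -((c.k : ℚ) ^ (-c.h g) * c.v g) := by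
  have := c.v_mul g⁻¹ g
  rw [inv_mul_cancel, v_one, h_inv] at this; linarith

@[simp] lemma h_pow (g : G) (n : ℕ) : c.h (g ^ n) = n * c.h g := by
  induction n with
  | zero => simp
  | succ n ih => rw [pow_succ, h_mul', ih]; push_cast; ring

@[simp] lemma h_zpow (g : G) (z : ℤ) : c.h (g ^ z) = z * c.h g := by
  obtain ⟨n, rfl | rfl⟩ := z.eq_nat_or_neg
  · simp
  · simp

@[simp] lemma h_a : c.h c.a = 0 := c.ha
@[simp] lemma h_t : c.h c.t = 1 := c.ht

lemma v_t_pow (n : ℕ) : c.v (c.t ^ n) = 0 := by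
  induction n with
  | zero => simp
  | succ n ih => rw [pow_succ, v_mul', ih, c.vt]; simp

@[simp] lemma v_t_zpow (z : ℤ) : c.v (c.t ^ z) = 0 := by
  obtain ⟨n, rfl | rfl⟩ := z.eq_nat_or_neg
  · simp [v_t_pow]
  · simp [v_inv, v_t_pow]

lemma v_a_pow (n : ℕ) : c.v (c.a ^ n) = n := by
  induction n with
  | zero => simp
  | succ n ih => rw [pow_succ, v_mul', ih, c.va]; simp

@[simp] lemma v_a_zpow (z : ℤ) : c.v (c.a ^ z) = z := by
  obtain ⟨n, rfl | rfl⟩ := z.eq_nat_or_neg
  · simp [v_a_pow]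
  · simp [v_inv, v_a_pow]

/-- the element with coordinates `(z, m)` -/
def el (z m : ℤ) : G := c.a ^ z * c.t ^ m

@[simp] lemma v_el (z m : ℤ) : c.v (c.el z m) = z := by simp [el, v_mul']
@[simp] lemma h_el (z m : ℤ) : c.h (c.el z m) = m := by simp [el]

lemma len_pow_le (g : G) (n : ℕ) : c.len (g ^ n) ≤ n * c.len g := by
  induction n with
  | zero => simp [c.len_one]
  | succ n ih => rw [pow_succ]; have := c.len_mul (g ^ n) g; nlinarith

lemma len_zpow_le (g : G) (z : ℤ) : c.len (g ^ z) ≤ z.natAbs * c.len g := by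
  obtain ⟨n, rfl | rfl⟩ := z.eq_nat_or_neg
  · simpa using c.len_pow_le g n
  · simpa [c.len_inv] using c.len_pow_le g n

lemma len_mul3 (g₁ g₂ g₃ : G) : c.len (g₁ * g₂ * g₃) ≤ c.len g₁ + c.len g₂ + c.len g₃ := by
  have := c.len_mul (g₁ * g₂) g₃
  have := c.len_mul g₁ g₂
  omega

/-- cost of a power of `a` -/
lemma len_a_pow (b n : ℕ) :
    c.len (c.a ^ n) ≤ (c.k * c.len c.a + 2 * c.len c.t) * b + c.len c.a * (n / c.k ^ b) := by
  induction b generalizing n with
  | zero => simpa [mul_comm] using c.len_pow_le c.a n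
  | succ b ih =>
    have hk : 0 < c.k := by have := c.hk; omega
    have e : c.a ^ n = c.a ^ (n % c.k) * (c.t * c.a ^ (n / c.k) * c.t⁻¹) := by
      apply c.ext'
      · simp only [v_mul', v_a_pow, h_mul', h_pow, h_a, h_t, v_inv, c.vt]
        simp only [mul_zero, zpow_zero, zpow_one, neg_zero, add_zero, zero_add, one_mul]
        exact_mod_cast (Nat.mod_add_div n c.k).symm
      · simp
    have h1 := c.len_mul (c.a ^ (n % c.k)) (c.t * c.a ^ (n / c.k) * c.t⁻¹)
    have h2 := c.len_mul3 c.t (c.a ^ (n / c.k)) c.t⁻¹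
    have h3 := c.len_pow_le c.a (n % c.k)
    have h4 : n % c.k * c.len c.a ≤ c.k * c.len c.a :=
      Nat.mul_le_mul_right _ (Nat.mod_lt n hk).le
    have h5 := ih (n / c.k)
    rw [Nat.div_div_eq_div_mul, ← pow_succ'] at h5
    rw [c.len_inv] at h2
    rw [e]
    nlinarith

lemma len_a_zpow (b : ℕ) (z : ℤ) :
    c.len (c.a ^ z) ≤
      (c.k * c.len c.a + 2 * c.len c.t) * b + c.len c.a * (z.natAbs / c.k ^ b) := by
  obtain ⟨n, rfl | rfl⟩ := z.eq_nat_or_neg
  · simpa using c.len_a_pow b n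
  · simpa [c.len_inv] using c.len_a_pow b n

/-- a path with `N` steps in `T` -/
def IsPath (p : ℕ → G) (N : ℕ) : Prop := ∀ i < N, (p i)⁻¹ * p (i + 1) ∈ c.T

variable {c}

lemma IsPath.len_le {p : ℕ → G} {N : ℕ} (hp : c.IsPath p N) {i j : ℕ} (hij : i ≤ j)
    (hj : j ≤ N) : c.len ((p i)⁻¹ * p j) ≤ j - i := by
  induction j, hij using Nat.le_induction with
  | base => simp [c.len_one]
  | succ j hij ih =>
    have h1 := ih (by omega)
    have h2 := c.len_T _ (hp j (by omega))
    have h3 := c.len_mul ((p i)⁻¹ * p j) ((p j)⁻¹ * p (j + 1))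
    have e : (p i)⁻¹ * p j * ((p j)⁻¹ * p (j + 1)) = (p i)⁻¹ * p (j + 1) := by group
    rw [e] at h3
    omega

lemma IsPath.step {p : ℕ → G} {N : ℕ} (hp : c.IsPath p N) {i : ℕ} (hi : i < N) :
    |c.h (p (i + 1)) - c.h (p i)| ≤ c.D := by
  have := c.hD _ (hp i hi)
  simp only [h_mul', h_inv] at this
  rwa [neg_add_eq_sub] at this

variable (c)

lemma h_le_len (g : G) : |c.h g| ≤ c.D * c.len g := by
  obtain ⟨p, h0, hN, hp⟩ := c.path g
  have key : ∀ i ≤ c.len g, |c.h (p i)| ≤ c.D * i := by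
    intro i hi
    induction i with
    | zero => simp [h0]
    | succ i ih =>
      have h1 := ih (by omega)
      have h2 := IsPath.step (c := c) hp (show i < c.len g by omega)
      have h3 := abs_add_le (c.h (p i)) (c.h (p (i + 1)) - c.h (p i))
      rw [add_sub_cancel] at h3
      push_cast
      linarith
  simpa [hN] using key _ le_rfl

lemma ball_finite (n : ℕ) : {g : G | c.len g ≤ n}.Finite := by
  induction n with
  | zero =>
    refine (Set.finite_singleton (1 : G)).subset fun g hg => ?_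
    obtain ⟨p, h0, hN, _⟩ := c.path g
    have : c.len g = 0 := by simpa using hg
    rw [this, h0] at hN
    exact hN.symm
  | succ n ih =>
    refine (ih.union (ih.image2 (· * ·) c.T.finite_toSet)).subset fun g hg => ?_
    by_cases h : c.len g ≤ n
    · exact Or.inl h
    · have hg' : c.len g = n + 1 := by have : c.len g ≤ n + 1 := hg; omega
      obtain ⟨p, h0, hN, hp⟩ := c.path g
      right
      refine ⟨p n, ?_, (p n)⁻¹ * p (n + 1), hp n (by omega), ?_⟩
      · have := IsPath.len_le (c := c) hp (Nat.zero_le n) (by omega)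
        simpa [h0] using this
      · rw [hg'] at hN
        simp [hN]

end Ctx

end Pool.Agent.P.MP_27e7ce_al
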