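import Pool.Agent.P.MP_27e7ce_al.Ctx

namespace Pool.Agent.P.MP_27e7ce_al

open Finset

namespace Ctx

variable {G : Type} [Group G] (c : Ctx G)

/-- contribution of step `i` -/
def con (p : ℕ → G) (i : ℕ) : ℚ := c.v (p (i + 1)) - c.v (p i)

lemma con_eq (p : ℕ → G) (i : ℕ) :
    c.con p i = (c.k : ℚ) ^ (c.h (p i)) * c.v ((p i)⁻¹ * p (i + 1)) := by
  have := c.v_mul (p i) ((p i)⁻¹ * p (i + 1))
  rw [mul_inv_cancel_left] at this
  rw [con, this]; ring

lemma sum_con (p : ℕ → G) (N : ℕ) : ∑ i ∈ range N, c.con p i = c.v (p N) - c.v (p 0) :=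
  Finset.sum_range_sub (fun i => c.v (p i)) N

/-- number of steps crossing level `l` -/
def cross (p : ℕ → G) (N : ℕ) (l : ℤ) : ℕ :=
  #{i ∈ range N | ¬ (c.h (p i) < l ↔ c.h (p (i + 1)) < l)}

variable {c}

lemma IsPath.sub {p : ℕ → G} {N : ℕ} (hp : c.IsPath p N) (I : ℕ → Prop) [DecidablePred I]
    (y : ℕ → ℤ) (hy : ∀ i, I i → y i = c.h (p i)) :
    ∃ q : G, c.h q = y N ∧ c.v q = ∑ i ∈ range N with I i, c.con p i ∧
      c.len ((c.t ^ (y 0))⁻¹ * q) ≤ ∑ i ∈ range N, ((if I i then 1 else 0) +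
        (y (i + 1) - (if I i then c.h (p (i + 1)) else y i)).natAbs * c.len c.t) := by
  induction N with
  | zero => exact ⟨c.t ^ (y 0), by simp, by simp, by simp [c.len_one]⟩
  | succ N ih =>
    obtain ⟨q, h1, h2, h3⟩ := ih (fun i hi => hp i (by omega))
    by_cases hI : I N
    · refine ⟨q * ((p N)⁻¹ * p (N + 1)) * c.t ^ (y (N + 1) - c.h (p (N + 1))), ?_, ?_, ?_⟩
      · simp only [h_mul', h_inv, h_zpow, h_t, h1, hy N hI]; ring
      · rw [v_mul', v_t_zpow, mul_zero, add_zero, v_mul', h1, hy N hI, ← con_eq, h2,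
          Finset.range_add_one, Finset.filter_insert, if_pos hI,
          Finset.sum_insert (by simp), add_comm]
      · rw [Finset.sum_range_succ, if_pos hI, if_pos hI]
        have h4 := c.len_mul3 ((c.t ^ (y 0))⁻¹ * q) ((p N)⁻¹ * p (N + 1))
          (c.t ^ (y (N + 1) - c.h (p (N + 1))))
        have h5 := c.len_T _ (hp N (by omega))
        have h6 := c.len_zpow_le c.t (y (N + 1) - c.h (p (N + 1)))
        simp only [mul_assoc] at h4 ⊢
        omega
    · refine ⟨q * c.t ^ (y (N + 1) - y N), ?_, ?_, ?_⟩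
      · simp only [h_mul', h_zpow, h_t, h1]; ring
      · rw [v_mul', v_t_zpow, mul_zero, add_zero, h2,
          Finset.range_add_one, Finset.filter_insert, if_neg hI]
      · rw [Finset.sum_range_succ, if_neg hI, if_neg hI]
        have h4 := c.len_mul ((c.t ^ (y 0))⁻¹ * q) (c.t ^ (y (N + 1) - y N))
        have h6 := c.len_zpow_le c.t (y (N + 1) - y N)
        simp only [mul_assoc] at h4 ⊢
        omega

lemma sum_ite_cost (N : ℕ) (I J : ℕ → Prop) [DecidablePred I] [DecidablePred J] (K : ℕ)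
    (f : ℕ → ℕ) (hf : ∀ i < N, f i ≤ if J i then K else 0) :
    ∑ i ∈ range N, ((if I i then 1 else 0) + f i) ≤
      #{i ∈ range N | I i} + K * #{i ∈ range N | J i} := by
  rw [Finset.sum_add_distrib, Finset.card_filter, Finset.card_filter, Finset.mul_sum]
  gcongr with i hi
  have := hf i (Finset.mem_range.1 hi)
  split_ifs at this ⊢ <;> omega

lemma IsPath.low {p : ℕ → G} {N : ℕ} (hp : c.IsPath p N) (l : ℤ) :
    ∃ q : G, c.h q = min (c.h (p N)) l ∧
      c.v q = ∑ i ∈ range N with c.h (p i) < l, c.con p i ∧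
      c.len ((c.t ^ (min (c.h (p 0)) l))⁻¹ * q) ≤
        #{i ∈ range N | c.h (p i) < l} + c.D * c.len c.t * c.cross p N l := by
  obtain ⟨q, h1, h2, h3⟩ := hp.sub (fun i => c.h (p i) < l) (fun i => min (c.h (p i)) l)
    (fun i hi => min_eq_left hi.le)
  refine ⟨q, h1, h2, h3.trans (sum_ite_cost N _ _ _ _ fun i hi => ?_)⟩
  have hs := abs_le.1 (hp.step hi)
  split_ifs with g1 g2 g2
  · have : min (c.h (p (i + 1))) l - c.h (p (i + 1)) = 0 := by omega
    simp [this]
  · exact Nat.mul_le_mul_right _ (by omega)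
  · have : min (c.h (p (i + 1))) l - min (c.h (p i)) l = 0 := by omega
    simp [this]
  · exact Nat.mul_le_mul_right _ (by omega)

lemma IsPath.high {p : ℕ → G} {N : ℕ} (hp : c.IsPath p N) (l : ℤ) :
    ∃ q : G, c.h q = max (c.h (p N)) l ∧
      c.v q = ∑ i ∈ range N with l ≤ c.h (p i), c.con p i ∧
      c.len ((c.t ^ (max (c.h (p 0)) l))⁻¹ * q) ≤
        #{i ∈ range N | l ≤ c.h (p i)} + c.D * c.len c.t * c.cross p N l := by
  obtain ⟨q, h1, h2, h3⟩ := hp.sub (fun i => l ≤ c.h (p i)) (fun i => max (c.h (p i)) l)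
    (fun i hi => max_eq_left hi)
  refine ⟨q, h1, h2, h3.trans (sum_ite_cost N _ _ _ _ fun i hi => ?_)⟩
  have hs := abs_le.1 (hp.step hi)
  split_ifs with g1 g2 g2
  · have : max (c.h (p (i + 1))) l - c.h (p (i + 1)) = 0 := by omega
    simp [this]
  · exact Nat.mul_le_mul_right _ (by omega)
  · have : max (c.h (p (i + 1))) l - max (c.h (p i)) l = 0 := by omega
    simp [this]
  · exact Nat.mul_le_mul_right _ (by omega)

variable (c) in
/-- number of steps starting in the window `[j - e, j + e)` -/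
def win (p : ℕ → G) (N : ℕ) (j : ℤ) (e : ℕ) : ℕ :=
  #{i ∈ range N | j - e ≤ c.h (p i) ∧ c.h (p i) < j + e}

/-- pigeonhole on crossing numbers -/
lemma IsPath.exists_cross {p : ℕ → G} {N : ℕ} (hp : c.IsPath p N) (j l₀ : ℤ) (q e : ℕ)
    (hq : 0 < q) (h1 : j - e ≤ l₀ - c.D) (h2 : l₀ + q + c.D ≤ j + e) :
    ∃ l, l₀ ≤ l ∧ l < l₀ + q ∧ q * c.cross p N l ≤ c.D * c.win p N j e := by
  have key : ∑ u ∈ range q, c.cross p N (l₀ + u) ≤ c.D * c.win p N j e := by
    simp only [cross, win, Finset.card_filter]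
    rw [Finset.sum_comm, Finset.mul_sum]
    refine Finset.sum_le_sum fun i hi => ?_
    have hs := abs_le.1 (hp.step (Finset.mem_range.1 hi))
    rw [← Finset.card_filter]
    split_ifs with hw
    · rw [mul_one]
      have : #{u ∈ range q | ¬ (c.h (p i) < l₀ + (u : ℕ) ↔ c.h (p (i + 1)) < l₀ + (u : ℕ))} ≤
          #(Finset.Ioc (min (c.h (p i)) (c.h (p (i + 1)))) (max (c.h (p i)) (c.h (p (i + 1))))) := by
        refine Finset.card_le_card_of_injOn (fun u : ℕ => l₀ + u) ?_ ?_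
        · intro u hu
          simp only [Finset.coe_filter, Set.mem_ofPred_eq] at hu
          simp only [Finset.coe_Ioc, Set.mem_Ioc]
          omega
        · intro u _ u' _ h
          simpa using h
      rw [Int.card_Ioc] at this
      omega
    · rw [mul_zero, Nat.le_zero, Finset.card_eq_zero, Finset.filter_eq_empty_iff]
      intro u hu
      have := Finset.mem_range.1 hu
      omega
  by_contra hcon
  push Not at hcon
  have : ∑ u ∈ range q, (c.D * c.win p N j e + 1) ≤ ∑ u ∈ range q, q * c.cross p N (l₀ + u) := by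
    refine Finset.sum_le_sum fun u hu => ?_
    have := Finset.mem_range.1 hu
    exact hcon (l₀ + u) (by omega) (by omega)
  rw [← Finset.mul_sum, Finset.sum_const, Finset.card_range, smul_eq_mul] at this
  have := Nat.le_of_mul_le_mul_left this hq
  omega

/-- sums of contributions above a level are integral after scaling -/
lemma IsPath.sum_int {p : ℕ → G} {N : ℕ} (hp : c.IsPath p N) (l : ℤ) (s : Finset ℕ)
    (hs : ∀ i ∈ s, i < N ∧ l ≤ c.h (p i)) :
    ∃ z : ℤ, ∑ i ∈ s, c.con p i = (c.k : ℚ) ^ (l - c.E) * z := by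
  have : ∀ i ∈ s, ∃ z : ℤ, c.con p i = (c.k : ℚ) ^ (l - c.E) * z := by
    intro i hi
    obtain ⟨z, hz⟩ := c.hE _ (hp i (hs i hi).1)
    obtain ⟨d, hd⟩ := Int.le.dest (hs i hi).2
    refine ⟨(c.k : ℤ) ^ d * z, ?_⟩
    rw [con_eq, ← hd, zpow_sub₀ c.k_ne, zpow_add₀ c.k_ne]
    push_cast
    rw [← hz]
    have := c.k_ne
    simp only [zpow_natCast]
    field_simp
  choose! z hz using this
  refine ⟨∑ i ∈ s, z i, ?_⟩
  rw [Finset.sum_congr rfl hz, ← Finset.mul_sum]
  push_cast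
  rfl

lemma IsPath.abs_con {p : ℕ → G} {N : ℕ} (hp : c.IsPath p N) {i : ℕ} (hi : i < N) :
    |c.con p i| ≤ (c.k : ℚ) ^ (c.h (p i)) * c.V := by
  rw [con_eq, abs_mul, abs_of_pos (zpow_pos c.k_pos _)]
  exact mul_le_mul_of_nonneg_left (c.hV _ (hp i hi)) (zpow_pos c.k_pos _).le

end Ctx

end Pool.Agent.P.MP_27e7ce_al
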