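import Pool.Agent.P.MP_27e7ce_al.Cut1

namespace Pool.Agent.P.MP_27e7ce_al

open Finset

namespace Ctx

variable {G : Type} [Group G] (c : Ctx G)

lemma card_three (N : ℕ) (H : ℕ → ℤ) (l₁ l₂ : ℤ) (h : l₁ ≤ l₂) :
    #{i ∈ range N | H i < l₁} + #{i ∈ range N | l₁ ≤ H i ∧ H i < l₂} +
      #{i ∈ range N | l₂ ≤ H i} = N := by
  simp only [Finset.card_filter, ← Finset.sum_add_distrib]
  conv_rhs => rw [← Finset.card_range N, Finset.card_eq_sum_ones]
  refine Finset.sum_congr rfl fun i _ => ?_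
  split_ifs <;> omega

lemma sum_three (N : ℕ) (H : ℕ → ℤ) (l₁ l₂ : ℤ) (h : l₁ ≤ l₂) (f : ℕ → ℚ) :
    ∑ i ∈ range N with H i < l₁, f i + ∑ i ∈ range N with (l₁ ≤ H i ∧ H i < l₂), f i +
      ∑ i ∈ range N with l₂ ≤ H i, f i = ∑ i ∈ range N, f i := by
  simp only [Finset.sum_filter, ← Finset.sum_add_distrib]
  refine Finset.sum_congr rfl fun i _ => ?_
  split_ifs <;> first | omega | simp

lemma bv_step : ∃ w C : ℕ, 0 < w ∧ ∀ (p : ℕ → G) (N : ℕ), c.IsPath p N → p 0 = 1 →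
    c.len (p N) = N → ∀ j : ℤ, 0 ≤ j → j ≤ c.h (p N) → ∀ e : ℕ,
    2 * c.win p N j e ≤ c.win p N j (e + w) + C * (e + 1) := by
  set τ := c.len c.t with hτ
  set α := c.len c.a with hα
  set q := 8 * c.D * c.D * τ + 1 with hq
  set w := q + c.D with hw
  set b₁ := 4 * α * (c.V + 1) with hb₁
  set C₀ := c.k * α + 2 * τ with hC₀
  refine ⟨w, 2 * (τ * (4 * w + 2 * c.E + 4) + C₀ * (c.E + 2 * w + b₁ + 2)), by omega, ?_⟩
  intro p N hp h0 hN j hj0 hjn e
  set F := c.win p N j (e + w) with hF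
  obtain ⟨l₁, a1, a2, a3⟩ := hp.exists_cross j (j - e - q) q (e + w) (by omega)
    (by push_cast; omega) (by push_cast; omega)
  obtain ⟨l₂, b1, b2, b3⟩ := hp.exists_cross j (j + e) q (e + w) (by omega)
    (by push_cast; omega) (by push_cast; omega)
  have hD := c.D_pos
  have c1 : 8 * (c.D * τ * c.cross p N l₁) ≤ F := by
    have : c.D * (8 * (c.D * τ * c.cross p N l₁)) ≤ c.D * F := by
      refine le_trans ?_ a3
      rw [hq]; nlinarith [Nat.zero_le (c.cross p N l₁)]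
    exact Nat.le_of_mul_le_mul_left this hD
  have c2 : 8 * (c.D * τ * c.cross p N l₂) ≤ F := by
    have : c.D * (8 * (c.D * τ * c.cross p N l₂)) ≤ c.D * F := by
      refine le_trans ?_ b3
      rw [hq]; nlinarith [Nat.zero_le (c.cross p N l₂)]
    exact Nat.le_of_mul_le_mul_left this hD
  obtain ⟨q₁, x1, x2, x3⟩ := hp.low l₁
  obtain ⟨q₂, y1, y2, y3⟩ := hp.high l₂
  rw [h0, h_one] at x3 y3
  have hl₁ : min (c.h (p N)) l₁ = l₁ := by omega
  have hl₂ : max 0 l₂ = l₂ := by omega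
  rw [hl₁] at x1
  rw [hl₂] at y3
  set s := {i ∈ range N | l₁ ≤ c.h (p i) ∧ c.h (p i) < l₂} with hs
  obtain ⟨z, hz⟩ := hp.sum_int l₁ s (fun i hi => by
    rw [hs, Finset.mem_filter, Finset.mem_range] at hi; exact ⟨hi.1, hi.2.1⟩)
  have hsF : #s ≤ F := by
    refine Finset.card_le_card fun i hi => ?_
    rw [hs, Finset.mem_filter] at hi
    rw [Finset.mem_filter]
    refine ⟨hi.1, ?_⟩
    push_cast; omega
  have hes : c.win p N j e ≤ #s := by
    refine Finset.card_le_card fun i hi => ?_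
    rw [Finset.mem_filter] at hi
    rw [hs, Finset.mem_filter]
    refine ⟨hi.1, ?_⟩
    omega
  have hzb : z.natAbs ≤ F * (c.V + 1) * c.k ^ (c.E + 2 * (e + w)) := by
    have h1 : |∑ i ∈ s, c.con p i| ≤ #s * ((c.k : ℚ) ^ (l₁ + 2 * (e + w : ℕ)) * c.V) := by
      refine (Finset.abs_sum_le_sum_abs _ _).trans ?_
      rw [← nsmul_eq_mul]
      refine Finset.sum_le_card_nsmul _ _ _ fun i hi => ?_
      rw [hs, Finset.mem_filter, Finset.mem_range] at hi
      refine (hp.abs_con hi.1).trans (mul_le_mul_of_nonneg_right ?_ (by positivity))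
      exact zpow_le_zpow_right₀ c.one_le_k (by push_cast; omega)
    rw [hz, abs_mul, abs_of_pos (zpow_pos c.k_pos _)] at h1
    have h2 : (c.k : ℚ) ^ (l₁ + 2 * (e + w : ℕ)) =
        (c.k : ℚ) ^ (l₁ - c.E) * (c.k : ℚ) ^ (c.E + 2 * (e + w)) := by
      rw [← zpow_natCast, ← zpow_add₀ c.k_ne]; congr 1; push_cast; ring
    rw [h2] at h1
    have h3 : |(z : ℚ)| ≤ #s * ((c.k : ℚ) ^ (c.E + 2 * (e + w)) * c.V) := by
      have hpos := zpow_pos c.k_pos (l₁ - c.E)
      refine le_of_mul_le_mul_left (h1.trans_eq ?_) hpos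
      ring
    have h4 : (z.natAbs : ℚ) ≤ F * (c.V + 1) * (c.k : ℚ) ^ (c.E + 2 * (e + w)) := by
      rw [Nat.cast_natAbs, Int.cast_abs]
      refine h3.trans ?_
      have : (#s : ℚ) ≤ F := by exact_mod_cast hsF
      have hk := pow_pos c.k_pos (c.E + 2 * (e + w))
      have hV : (0 : ℚ) ≤ c.V := by positivity
      have hF0 : (0 : ℚ) ≤ F := by positivity
      calc (#s : ℚ) * ((c.k : ℚ) ^ (c.E + 2 * (e + w)) * c.V)
          ≤ F * ((c.k : ℚ) ^ (c.E + 2 * (e + w)) * (c.V + 1)) := by gcongr; linarith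
        _ = _ := by ring
    exact_mod_cast h4
  have hza : 4 * (α * (z.natAbs / c.k ^ (c.E + 2 * (e + w) + b₁))) ≤ F := by
    set u := z.natAbs / c.k ^ (c.E + 2 * (e + w) + b₁) with hu
    have h1 : u * c.k ^ (c.E + 2 * (e + w) + b₁) ≤ z.natAbs := Nat.div_mul_le_self _ _
    have hk : 0 < c.k ^ (c.E + 2 * (e + w)) := by have := c.hk; positivity
    have h2 : u * c.k ^ b₁ ≤ F * (c.V + 1) := by
      refine Nat.le_of_mul_le_mul_right ?_ hk
      refine le_trans (le_of_eq ?_) (h1.trans hzb)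
      rw [pow_add _ _ b₁]; ring
    have h3 : b₁ ≤ c.k ^ b₁ := (Nat.lt_pow_self (by have := c.hk; omega)).le
    have h4 : u * b₁ ≤ F * (c.V + 1) := (Nat.mul_le_mul_left u h3).trans h2
    refine Nat.le_of_mul_le_mul_right ?_ (Nat.succ_pos c.V)
    refine le_trans (le_of_eq ?_) h4
    rw [hb₁]; simp only [Nat.succ_eq_add_one]; ring
  have hla := c.len_a_zpow (c.E + 2 * (e + w) + b₁) z
  have heq : p N = c.t ^ (min 0 l₁) * ((c.t ^ (min 0 l₁))⁻¹ * q₁) * c.t ^ (-(c.E : ℤ)) * c.a ^ z *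
      c.t ^ (c.E + l₂ - l₁) * ((c.t ^ l₂)⁻¹ * q₂) * c.t ^ (c.h (p N) - max (c.h (p N)) l₂) := by
    rw [mul_inv_cancel_left]
    apply c.ext'
    · simp only [v_mul', v_t_zpow, v_a_zpow, v_inv, h_mul', h_zpow, h_inv, h_t, h_a, x1, x2, y2]
      have h1 := sum_three N (fun i => c.h (p i)) l₁ l₂ (by omega) (c.con p)
      rw [sum_con, h0, v_one, sub_zero] at h1
      rw [← h1, ← hs, hz]
      have e1 : l₁ + -(c.E : ℤ) * 1 + z * 0 + (c.E + l₂ - l₁) * 1 = l₂ := by ring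
      have e2 : l₁ + -(c.E : ℤ) * 1 = l₁ - c.E := by ring
      rw [e1, e2, mul_one, zpow_neg]
      have := (zpow_pos c.k_pos l₂).ne'
      field_simp
      ring
    · simp only [h_mul', h_zpow, h_inv, h_t, h_a, x1, y1]; ring
  have hlen : N ≤ (min 0 l₁).natAbs * τ + c.len ((c.t ^ (min 0 l₁))⁻¹ * q₁) + c.E * τ +
      c.len (c.a ^ z) + (c.E + l₂ - l₁).natAbs * τ + c.len ((c.t ^ l₂)⁻¹ * q₂) +
      (c.h (p N) - max (c.h (p N)) l₂).natAbs * τ := by
    have t1 := c.len_zpow_le c.t (min 0 l₁)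
    have t2 := c.len_zpow_le c.t (-(c.E : ℤ))
    have t3 := c.len_zpow_le c.t (c.E + l₂ - l₁)
    have t4 := c.len_zpow_le c.t (c.h (p N) - max (c.h (p N)) l₂)
    rw [Int.natAbs_neg, Int.natAbs_natCast] at t2
    rw [← hτ] at t1 t2 t3 t4
    conv_lhs => rw [← hN, heq]
    refine (c.len_mul _ _).trans (Nat.add_le_add ?_ t4)
    refine (c.len_mul _ _).trans (Nat.add_le_add ?_ le_rfl)
    refine (c.len_mul _ _).trans (Nat.add_le_add ?_ t3)
    refine (c.len_mul _ _).trans (Nat.add_le_add ?_ le_rfl)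
    refine (c.len_mul _ _).trans (Nat.add_le_add ?_ t2)
    exact (c.len_mul _ _).trans (Nat.add_le_add t1 le_rfl)
  have u1 : (min 0 l₁).natAbs * τ ≤ (e + w) * τ := Nat.mul_le_mul_right _ (by omega)
  have u2 : (c.E + l₂ - l₁).natAbs * τ ≤ (c.E + 2 * (e + w)) * τ :=
    Nat.mul_le_mul_right _ (by omega)
  have u3 : (c.h (p N) - max (c.h (p N)) l₂).natAbs * τ ≤ (e + w) * τ :=
    Nat.mul_le_mul_right _ (by omega)
  have hc := card_three N (fun i => c.h (p i)) l₁ l₂ (by omega)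
  rw [← hs] at hc
  rw [← hτ] at x3 y3
  rw [← hτ, ← hα, ← hC₀] at hla
  have fin : (e + w) * τ + c.E * τ + (c.E + 2 * (e + w)) * τ + (e + w) * τ +
      C₀ * (c.E + 2 * (e + w) + b₁) ≤
      (τ * (4 * w + 2 * c.E + 4) + C₀ * (c.E + 2 * w + b₁ + 2)) * (e + 1) := by
    have : (τ * (4 * w + 2 * c.E + 4) + C₀ * (c.E + 2 * w + b₁ + 2)) * (e + 1) =
        ((e + w) * τ + c.E * τ + (c.E + 2 * (e + w)) * τ + (e + w) * τ +
        C₀ * (c.E + 2 * (e + w) + b₁)) +
        (τ * (4 + e * (4 * w + 2 * c.E)) + C₀ * (2 + e * (c.E + 2 * w + b₁))) := by ring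
    omega
  rw [mul_assoc 2]
  omega

lemma bv : ∃ B : ℕ, ∀ (p : ℕ → G) (N : ℕ), c.IsPath p N → p 0 = 1 →
    c.len (p N) = N → ∀ j : ℤ, 0 ≤ j → j ≤ c.h (p N) → ∀ e : ℕ,
    c.win p N j e ≤ B * (e + 1) := by
  obtain ⟨w, C, hw, H⟩ := c.bv_step
  refine ⟨(C + 1) + ((C + 1) * w + C), fun p N hp h0 hN j hj0 hjn => ?_⟩
  have key : ∀ n e : ℕ, N ≤ e + n → c.win p N j e ≤ (C + 1) * e + ((C + 1) * w + C) := by
    intro n
    induction n with
    | zero =>
      intro e he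
      have : c.win p N j e ≤ N := by
        refine (Finset.card_filter_le _ _).trans (by simp)
      nlinarith
    | succ n ih =>
      intro e he
      have h1 := ih (e + w) (by omega)
      have h2 := H p N hp h0 hN j hj0 hjn e
      nlinarith
  intro e
  have := key N e (by omega)
  nlinarith [Nat.zero_le (((C + 1) * w + C) * e)]

lemma geom_bound (R : ℕ) : ∑ d ∈ range R, ((d : ℚ) + 2) / 2 ^ d ≤ 6 := by
  have : ∑ d ∈ range R, ((d : ℚ) + 2) / 2 ^ d = 6 - 2 * (R + 3) / 2 ^ R := by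
    induction R with
    | zero => norm_num
    | succ R ih => rw [Finset.sum_range_succ, ih]; push_cast; field_simp; ring
  rw [this]
  have : (0 : ℚ) ≤ 2 * (R + 3) / 2 ^ R := by positivity
  linarith

lemma low_bound : ∃ B : ℕ, ∀ (p : ℕ → G) (N : ℕ), c.IsPath p N → p 0 = 1 →
    c.len (p N) = N → ∀ j : ℤ, 0 ≤ j → j ≤ c.h (p N) → ∀ s : Finset ℕ,
    (∀ i ∈ s, i < N ∧ c.h (p i) ≤ j) → |∑ i ∈ s, c.con p i| ≤ B * (c.k : ℚ) ^ j := by
  obtain ⟨B, hB⟩ := c.bv
  refine ⟨6 * B * c.V, fun p N hp h0 hN j hj0 hjn s hs => ?_⟩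
  have hkj := zpow_pos c.k_pos j
  set d : ℕ → ℕ := fun i => (j - c.h (p i)).toNat with hd
  have h1 : ∀ i ∈ s, |c.con p i| ≤ (c.k : ℚ) ^ j * c.V * (1 / 2 ^ (d i)) := by
    intro i hi
    refine (hp.abs_con (hs i hi).1).trans ?_
    have e : c.h (p i) = j - d i := by have := (hs i hi).2; simp only [hd]; omega
    rw [e, zpow_sub₀ c.k_ne, zpow_natCast]
    have h2 : (2 : ℚ) ^ d i ≤ (c.k : ℚ) ^ d i := pow_le_pow_left₀ (by norm_num) c.two_le_k _
    have hV : (0 : ℚ) ≤ c.V := by positivity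
    calc (c.k : ℚ) ^ j / (c.k : ℚ) ^ d i * c.V ≤ (c.k : ℚ) ^ j / 2 ^ d i * c.V := by
          gcongr
      _ = _ := by ring
  refine (Finset.abs_sum_le_sum_abs _ _).trans ((Finset.sum_le_sum h1).trans ?_)
  rw [← Finset.mul_sum]
  set R := s.sup d + 1 with hR
  have h3 : ∑ i ∈ s, (1 : ℚ) / 2 ^ (d i) ≤ 6 * B := by
    rw [← Finset.sum_fiberwise_of_maps_to (g := d) (t := range R) (fun i hi => by
      have := Finset.le_sup (f := d) hi
      rw [Finset.mem_range]; omega)]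
    have h4 : ∀ u ∈ range R, ∑ i ∈ s with d i = u, (1 : ℚ) / 2 ^ (d i) ≤
        B * (((u : ℚ) + 2) / 2 ^ u) := by
      intro u _
      rw [Finset.sum_congr rfl (g := fun _ => (1 : ℚ) / 2 ^ u) (fun i hi => by
        rw [(Finset.mem_filter.1 hi).2]), Finset.sum_const, nsmul_eq_mul]
      have h5 : #{i ∈ s | d i = u} ≤ c.win p N j (u + 1) := by
        refine Finset.card_le_card fun i hi => ?_
        rw [Finset.mem_filter] at hi
        have := hs i hi.1
        have h6 := hi.2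
        simp only [hd] at h6
        rw [Finset.mem_filter, Finset.mem_range]
        refine ⟨this.1, ?_⟩
        push_cast; omega
      have h6 : (#{i ∈ s | d i = u} : ℚ) ≤ B * (u + 2) := by
        have := h5.trans (hB p N hp h0 hN j hj0 hjn (u + 1))
        exact_mod_cast this
      calc (#{i ∈ s | d i = u} : ℚ) * (1 / 2 ^ u) ≤ B * (u + 2) * (1 / 2 ^ u) := by gcongr
        _ = _ := by ring
    refine (Finset.sum_le_sum h4).trans ?_
    rw [← Finset.mul_sum, mul_comm]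
    exact mul_le_mul_of_nonneg_right (geom_bound R) (by positivity)
  calc (c.k : ℚ) ^ j * c.V * ∑ i ∈ s, (1 : ℚ) / 2 ^ (d i) ≤ (c.k : ℚ) ^ j * c.V * (6 * B) := by
        gcongr
    _ = _ := by push_cast; ring

end Ctx

end Pool.Agent.P.MP_27e7ce_al
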