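import Pool.Agent.P.MP_27e7ce_al.Cut2

namespace Pool.Agent.P.MP_27e7ce_al

open Finset

namespace Ctx

variable {G : Type} [Group G] (c : Ctx G)

lemma sum_two (N : ℕ) (H : ℕ → ℤ) (l : ℤ) (f : ℕ → ℚ) :
    ∑ i ∈ range N with H i < l, f i + ∑ i ∈ range N with l ≤ H i, f i = ∑ i ∈ range N, f i := by
  simp only [Finset.sum_filter, ← Finset.sum_add_distrib]
  refine Finset.sum_congr rfl fun i _ => ?_
  split_ifs <;> first | omega | simp

lemma card_two (N : ℕ) (H : ℕ → ℤ) (l : ℤ) :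
    #{i ∈ range N | H i < l} + #{i ∈ range N | l ≤ H i} = N := by
  simp only [Finset.card_filter, ← Finset.sum_add_distrib]
  conv_rhs => rw [← Finset.card_range N, Finset.card_eq_sum_ones]
  refine Finset.sum_congr rfl fun i _ => ?_
  split_ifs <;> omega

/-- The cutting lemma. -/
lemma cut : ∃ C : ℕ, ∀ (g : G) (j : ℤ), 0 ≤ j → j ≤ c.h g → ∀ y : ℤ,
    |c.v g - (c.k : ℚ) ^ j * y| ≤ (c.k : ℚ) ^ j →
    c.len (g * (c.el y (c.h g - j))⁻¹) + c.len (c.el y (c.h g - j)) ≤ c.len g + C := by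
  obtain ⟨B, hB⟩ := c.bv
  obtain ⟨B₁, hB₁⟩ := c.low_bound
  set τ := c.len c.t with hτ
  set α := c.len c.a with hα
  refine ⟨2 * (c.D * τ * (B * (c.D + 1))) + 2 * (2 * c.E * τ + c.k ^ c.E * (1 + B₁) * α), ?_⟩
  intro g j hj0 hjn y hy
  obtain ⟨p, h0, hN, hp⟩ := c.path g
  have hp : c.IsPath p (c.len g) := hp
  set N := c.len g with hNdef
  have hN' : c.len (p N) = N := by rw [hN]
  have hjn' : j ≤ c.h (p N) := by rw [hN]; exact hjn
  obtain ⟨q₁, x1, x2, x3⟩ := hp.low j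
  obtain ⟨q₂, y1, y2, y3⟩ := hp.high j
  rw [h0, h_one] at x3 y3
  rw [hN] at x1 y1
  rw [min_eq_right hjn] at x1
  rw [max_eq_left hjn] at y1
  rw [min_eq_left hj0, zpow_zero, inv_one, one_mul] at x3
  rw [max_eq_right hj0] at y3
  have hcr : c.cross p N j ≤ B * (c.D + 1) := by
    refine le_trans (Finset.card_le_card fun i hi => ?_) (hB p N hp h0 hN' j hj0 hjn' c.D)
    rw [Finset.mem_filter] at hi ⊢
    have hs := abs_le.1 (hp.step (Finset.mem_range.1 hi.1))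
    refine ⟨hi.1, ?_⟩
    omega
  obtain ⟨z', hz'⟩ := hp.sum_int j {i ∈ range N | j ≤ c.h (p i)} (fun i hi => by
    rw [Finset.mem_filter, Finset.mem_range] at hi; exact hi)
  have hlow := hB₁ p N hp h0 hN' j hj0 hjn' {i ∈ range N | c.h (p i) < j} (fun i hi => by
    rw [Finset.mem_filter, Finset.mem_range] at hi; exact ⟨hi.1, hi.2.le⟩)
  have hsum := sum_two N (fun i => c.h (p i)) j (c.con p)
  rw [sum_con, h0, v_one, sub_zero, hN, ← x2, ← y2] at hsum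
  rw [← x2] at hlow
  rw [← y2] at hz'
  set z : ℤ := z' - (c.k : ℤ) ^ c.E * y with hz
  have hkj := zpow_pos c.k_pos j
  have hkE := pow_pos c.k_pos c.E
  have hzq : (c.k : ℚ) ^ j * z = (c.k : ℚ) ^ c.E * (c.v g - (c.k : ℚ) ^ j * y - c.v q₁) := by
    rw [← hsum, hz', hz, zpow_sub₀ c.k_ne, zpow_natCast]
    push_cast
    field_simp
    ring
  have hzb : z.natAbs ≤ c.k ^ c.E * (1 + B₁) := by
    have h1 : (c.k : ℚ) ^ j * |(z : ℚ)| ≤ (c.k : ℚ) ^ j * ((c.k : ℚ) ^ c.E * (1 + B₁)) := by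
      rw [← abs_of_pos hkj, ← abs_mul, hzq, abs_mul, abs_of_pos hkE, abs_of_pos hkj]
      have := abs_sub (c.v g - (c.k : ℚ) ^ j * y) (c.v q₁)
      calc (c.k : ℚ) ^ c.E * |c.v g - (c.k : ℚ) ^ j * y - c.v q₁|
          ≤ (c.k : ℚ) ^ c.E * ((c.k : ℚ) ^ j + B₁ * (c.k : ℚ) ^ j) := by gcongr; linarith
        _ = _ := by ring
    have h2 := le_of_mul_le_mul_left h1 hkj
    have h3 : (z.natAbs : ℚ) ≤ (c.k : ℚ) ^ c.E * (1 + B₁) := by
      rw [Nat.cast_natAbs, Int.cast_abs]; exact h2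
    exact_mod_cast h3
  set u : G := c.t ^ (-(c.E : ℤ)) * c.a ^ z * c.t ^ (c.E : ℤ) with hu
  have hul : c.len u ≤ 2 * c.E * τ + c.k ^ c.E * (1 + B₁) * α := by
    have t1 := c.len_mul3 (c.t ^ (-(c.E : ℤ))) (c.a ^ z) (c.t ^ (c.E : ℤ))
    have t2 := c.len_zpow_le c.t (-(c.E : ℤ))
    have t3 := c.len_zpow_le c.t (c.E : ℤ)
    have t4 := c.len_zpow_le c.a z
    have t5 : z.natAbs * α ≤ c.k ^ c.E * (1 + B₁) * α := Nat.mul_le_mul_right _ hzb
    rw [Int.natAbs_neg, Int.natAbs_natCast] at t2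
    rw [Int.natAbs_natCast] at t3
    rw [← hτ] at t2 t3
    rw [← hα] at t4
    rw [← hu] at t1
    linarith
  have hvu : (c.k : ℚ) ^ j * c.v u = c.v g - (c.k : ℚ) ^ j * y - c.v q₁ := by
    have : c.v u = (c.k : ℚ) ^ (-(c.E : ℤ)) * z := by
      simp [hu, v_mul', v_inv, v_t_pow]
    rw [this, zpow_neg, zpow_natCast]
    have h1 : (c.k : ℚ) ^ j * (((c.k : ℚ) ^ c.E)⁻¹ * z) = ((c.k : ℚ) ^ c.E)⁻¹ * ((c.k : ℚ) ^ j * z) := by
      ring
    rw [h1, hzq]
    field_simp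
  have hhu : c.h u = 0 := by simp [hu]
  have e1 : g * (c.el y (c.h g - j))⁻¹ = q₁ * u := by
    rw [mul_inv_eq_iff_eq_mul]
    apply c.ext'
    · simp only [v_mul', h_mul', v_el, x1, hhu, add_zero]
      linarith
    · simp [x1, hhu]
  have e2 : c.el y (c.h g - j) = u⁻¹ * ((c.t ^ j)⁻¹ * q₂) := by
    rw [eq_inv_mul_iff_mul_eq, eq_inv_mul_iff_mul_eq]
    apply c.ext'
    · simp only [v_mul', v_el, hhu, v_t_zpow, h_zpow, h_t, mul_one, zpow_zero, one_mul,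
        zero_add]
      linarith
    · simp [y1, hhu]
  have l1 := c.len_mul q₁ u
  have l2 := c.len_mul u⁻¹ ((c.t ^ j)⁻¹ * q₂)
  rw [c.len_inv] at l2
  rw [e1]
  rw [← e2] at l2
  have hc := card_two N (fun i => c.h (p i)) j
  have l3 : c.D * τ * c.cross p N j ≤ c.D * τ * (B * (c.D + 1)) := Nat.mul_le_mul_left _ hcr
  rw [← hτ] at x3 y3
  omega

/-- length of the digit string of `u` of size `m` -/
def L (u : ℤ) (m : ℕ) : ℕ := c.len (c.el u m)

lemma el_mul (u w : ℤ) (m n : ℕ) :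
    c.el u m * c.el w n = c.el (u + (c.k : ℤ) ^ m * w) ((m + n : ℕ) : ℤ) := by
  apply c.ext'
  · simp [v_mul']
  · simp

lemma L_sub (u w : ℤ) (m n : ℕ) : c.L (u + (c.k : ℤ) ^ m * w) (m + n) ≤ c.L u m + c.L w n := by
  rw [L, ← el_mul]; exact c.len_mul _ _

lemma le_L (u : ℤ) (m : ℕ) : m ≤ c.D * c.L u m := by
  have := c.h_le_len (c.el u m)
  rw [h_el, Nat.abs_cast] at this
  exact_mod_cast this

/-- The properties of the constant in the cutting lemma used later. -/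
structure CutConst (C : ℕ) : Prop where
  add : ∀ (u w : ℤ) (m n : ℕ), 0 ≤ u → u < (c.k : ℤ) ^ m →
    c.L u m + c.L w n ≤ c.L (u + (c.k : ℤ) ^ m * w) (m + n) + C
  red : ∀ (g : G) (m : ℕ), c.h g = m → c.L (⌊c.v g⌋ % (c.k : ℤ) ^ m) m ≤ c.len g + C
  shift : ∀ (u : ℤ) (i m : ℕ), i ≤ m →
    c.L ((u + (c.k : ℤ) ^ i) % (c.k : ℤ) ^ m) m ≤ c.L u m + C

lemma exists_cutConst : ∃ C, c.CutConst C := by
  obtain ⟨C, hC⟩ := c.cut
  have kpos : ∀ m : ℕ, (0 : ℤ) < (c.k : ℤ) ^ m := fun m => by have := c.hk; positivity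
  have add : ∀ (u w : ℤ) (m n : ℕ), 0 ≤ u → u < (c.k : ℤ) ^ m →
      c.L u m + c.L w n ≤ c.L (u + (c.k : ℤ) ^ m * w) (m + n) + C := by
    intro u w m n hu hu'
    have h1 := hC (c.el (u + (c.k : ℤ) ^ m * w) ((m + n : ℕ) : ℤ)) m (by positivity)
      (by simp) w (by
        rw [v_el]; push_cast
        rw [zpow_natCast, add_sub_cancel_right, abs_of_nonneg (by exact_mod_cast hu)]
        exact_mod_cast hu'.le)
    have e : c.h (c.el (u + (c.k : ℤ) ^ m * w) ((m + n : ℕ) : ℤ)) - m = n := by simp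
    rw [e, ← el_mul, mul_inv_cancel_right, el_mul] at h1
    exact h1
  have red : ∀ (g : G) (m : ℕ), c.h g = m →
      c.L (⌊c.v g⌋ % (c.k : ℤ) ^ m) m ≤ c.len g + 2 * C := by
    intro g m hm
    have h1 := hC g 0 le_rfl (by omega) ⌊c.v g⌋ (by
      rw [zpow_zero, one_mul, abs_le]
      have := Int.floor_le (c.v g)
      have := Int.lt_floor_add_one (c.v g)
      constructor <;> linarith)
    rw [sub_zero, hm] at h1
    have h2 := add (⌊c.v g⌋ % (c.k : ℤ) ^ m) (⌊c.v g⌋ / (c.k : ℤ) ^ m) m 0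
      (Int.emod_nonneg _ (kpos m).ne') (Int.emod_lt_of_pos _ (kpos m))
    rw [Int.emod_add_mul_ediv, add_zero] at h2
    unfold L at h2 ⊢
    omega
  refine ⟨3 * C + c.len c.a, ⟨fun u w m n hu hu' => ?_, fun g m hm => ?_, fun u i m him => ?_⟩⟩
  · have := add u w m n hu hu'; omega
  · have := red g m hm; omega
  · obtain ⟨n, rfl⟩ := Nat.exists_eq_add_of_le him
    have h1 := add (u % (c.k : ℤ) ^ i) (u / (c.k : ℤ) ^ i) i n
      (Int.emod_nonneg _ (kpos i).ne') (Int.emod_lt_of_pos _ (kpos i))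
    rw [Int.emod_add_mul_ediv] at h1
    have h2 := red (c.el (u % (c.k : ℤ) ^ i) i * c.a * c.el (u / (c.k : ℤ) ^ i) n) (i + n)
      (by simp)
    have h3 : c.v (c.el (u % (c.k : ℤ) ^ i) i * c.a * c.el (u / (c.k : ℤ) ^ i) n) =
        ((u + (c.k : ℤ) ^ i : ℤ) : ℚ) := by
      simp only [v_mul', v_el, h_mul', h_el, h_a, c.va, add_zero, zpow_natCast]
      conv_rhs => rw [← Int.emod_add_mul_ediv u ((c.k : ℤ) ^ i)]
      push_cast; ring
    rw [h3, Int.floor_intCast] at h2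
    have h4 := c.len_mul3 (c.el (u % (c.k : ℤ) ^ i) i) c.a (c.el (u / (c.k : ℤ) ^ i) n)
    unfold L at h1 h2 ⊢
    omega

variable {c}

/-- stable length: conjugation cannot shorten a digit string by more than a constant -/
lemma CutConst.conj {C : ℕ} (hC : c.CutConst C) (u : ℤ) (m : ℕ) (hu : 0 ≤ u)
    (hu' : u < (c.k : ℤ) ^ m) (g : G) (hg : IsConj g (c.el u m)) : c.L u m ≤ c.len g + C := by
  have key : ∀ N : ℕ, ∃ w : ℤ, (c.el u m) ^ N = c.el w ((m * N : ℕ) : ℤ) ∧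
      N * c.L u m ≤ c.L w (m * N) + N * C := by
    intro N
    induction N with
    | zero => exact ⟨0, by simp [el], by simp⟩
    | succ N ih =>
      obtain ⟨w, h1, h2⟩ := ih
      refine ⟨u + (c.k : ℤ) ^ m * w, ?_, ?_⟩
      · rw [pow_succ', h1, el_mul]; congr 2; ring
      · have h3 := hC.add u w m (m * N) hu hu'
        have e : m * (N + 1) = m + m * N := by ring
        rw [e]
        nlinarith
  obtain ⟨y, hy⟩ := isConj_iff.1 hg
  by_contra hcon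
  push Not at hcon
  obtain ⟨w, h1, h2⟩ := key (2 * c.len y + 1)
  have h3 : c.L w (m * (2 * c.len y + 1)) ≤ (2 * c.len y + 1) * c.len g + 2 * c.len y := by
    rw [L, ← h1, ← hy, conj_pow]
    have t1 := c.len_mul3 y (g ^ (2 * c.len y + 1)) y⁻¹
    have t2 := c.len_pow_le g (2 * c.len y + 1)
    rw [c.len_inv] at t1
    omega
  have h4 : (2 * c.len y + 1) * (c.len g + C + 1) ≤ (2 * c.len y + 1) * c.L u m :=
    Nat.mul_le_mul_left _ hcon
  nlinarith

end Ctx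

end Pool.Agent.P.MP_27e7ce_al
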