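import Mathlib

namespace Pool.Agent.P.MP_27e7ce_al

/-- The relator `t a t⁻¹ a^(-k)` of `BS(1,k)`; generator `0` is `a`, generator `1` is `t`. -/
def bsRel (k : ℕ) : Set (FreeGroup (Fin 2)) :=
  {FreeGroup.of 1 * FreeGroup.of 0 * (FreeGroup.of 1)⁻¹ * (FreeGroup.of 0 ^ k)⁻¹}

/-- Length of a shortest word in `S ∪ S⁻¹` representing `g`. -/
noncomputable def wordLength {G : Type} [Group G] (S : Set G) (g : G) : ℕ :=
  sInf {n : ℕ | ∃ w : List G, w.length = n ∧ (∀ s ∈ w, s ∈ S ∨ s⁻¹ ∈ S) ∧ w.prod = g}

/-- Length of a conjugacy class: the least word length of one of its elements. -/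
noncomputable def classLength {G : Type} [Group G] (S : Set G) (c : ConjClasses G) : ℕ :=
  sInf {n : ℕ | ∃ g : G, ConjClasses.mk g = c ∧ wordLength S g = n}

/-- The conjugacy growth series: the `n`-th coefficient counts classes of length `n`. -/
noncomputable def conjGrowthSeries {G : Type} [Group G] (S : Set G) : PowerSeries ℚ :=
  PowerSeries.mk fun n : ℕ => (Set.ncard {c : ConjClasses G | classLength S c = n} : ℚ)

end Pool.Agent.P.MP_27e7ce_al
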