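import Pool.Agent.P.MP_27e7ce_al.Bounds
import Pool.Agent.P.MP_27e7ce_al.Alg

namespace Pool.Agent.P.MP_27e7ce_al

open Finset Filter Topology Polynomial

namespace Ctx

variable {G : Type} [Group G] (c : Ctx G)

lemma cl_finite (n : ℕ) : {κ : ConjClasses G | c.cl κ ≤ n}.Finite := by
  refine ((c.ball_finite n).image ConjClasses.mk).subset fun κ hκ => ?_
  obtain ⟨g, hg, hg'⟩ := c.exists_cl κ
  exact ⟨g, by rw [Set.mem_ofPred_eq, hg']; exact hκ, hg⟩

lemma sum_eq (x : ℝ) (N : ℕ) : ∃ Cs : Finset (ConjClasses G), (∀ κ, κ ∈ Cs ↔ c.cl κ < N) ∧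
    ∑ n ∈ range N, (Set.ncard {κ : ConjClasses G | c.cl κ = n} : ℝ) * x ^ n =
      ∑ κ ∈ Cs, x ^ c.cl κ := by
  classical
  have hf : {κ : ConjClasses G | c.cl κ < N}.Finite :=
    (c.cl_finite N).subset fun κ hκ => (le_of_lt hκ : c.cl κ ≤ N)
  refine ⟨hf.toFinset, by simp, ?_⟩
  rw [← Finset.sum_fiberwise_of_maps_to (s := hf.toFinset) (t := range N) (g := c.cl)
    (fun κ hκ => by simpa using hκ)]
  refine Finset.sum_congr rfl fun n hn => ?_
  rw [Finset.sum_congr rfl (g := fun _ => x ^ n) (fun κ hκ => by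
    rw [(Finset.mem_filter.1 hκ).2]), Finset.sum_const, nsmul_eq_mul, ← Set.ncard_coe_finset]
  congr 3
  ext κ
  simp only [Set.mem_ofPred_eq, Finset.coe_filter, Set.Finite.mem_toFinset]
  have := Finset.mem_range.1 hn
  omega

theorem main : Transcendental ℚ[X]
    (PowerSeries.mk fun n : ℕ => (Set.ncard {κ : ConjClasses G | c.cl κ = n} : ℚ)) := by
  classical
  obtain ⟨C, hC⟩ := c.exists_cutConst
  obtain ⟨r, hr0, hr1, hr⟩ := hC.exists_radius
  obtain ⟨K, _, hK⟩ := hC.upper hr0 hr1 (fun m => (hr m).1)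
  refine transcendental_of_log _ (fun n => by simp) r hr0 c.D c.D_pos K ?_ ?_
  · intro ρ h0 h1 N
    simp only [PowerSeries.coeff_mk, Rat.cast_natCast]
    obtain ⟨Cs, _, h⟩ := c.sum_eq (r * ρ ^ c.D) N
    choose rep h2 h3 using c.exists_cl
    have hinj : Function.Injective rep := fun κ κ' h => by rw [← h2 κ, h, h2]
    rw [h]
    refine le_trans (le_of_eq ?_) (hK ρ h0 h1 (Cs.image rep) ?_)
    · rw [Finset.sum_image fun _ _ _ _ h => hinj h]
      simp only [h3]
    · intro g₀ hg₀ g₁ hg₁ hc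
      obtain ⟨κ, _, rfl⟩ := Finset.mem_image.1 hg₀
      obtain ⟨κ', _, rfl⟩ := Finset.mem_image.1 hg₁
      have := ConjClasses.mk_eq_mk_iff_isConj.2 hc
      rw [h2, h2] at this
      rw [this]
  · intro B
    simp only [PowerSeries.coeff_mk, Rat.cast_natCast]
    have hrC : 0 < r ^ C := pow_pos hr0 _
    obtain ⟨M, hM⟩ : ∃ M : ℕ, B < ∑ n ∈ range M, c.A (n + 1) r / (n + 2) := by
      have h1 := Real.tendsto_sum_range_one_div_nat_succ_atTop.const_mul_atTop
        (show 0 < r ^ C / 2 by positivity)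
      obtain ⟨M, hM⟩ := (h1.eventually_gt_atTop B).exists
      refine ⟨M, hM.trans_le ?_⟩
      rw [Finset.mul_sum]
      refine Finset.sum_le_sum fun n _ => ?_
      have h2 := (hr (n + 1)).2
      rw [div_mul_div_comm, mul_one]
      have : (0 : ℝ) ≤ n := by positivity
      gcongr
      · exact hrC.le.trans h2
      · linarith
    have hcont : Continuous fun ρ : ℝ => ∑ n ∈ range M, c.A (n + 1) (r * ρ ^ c.D) / (n + 2) := by
      refine continuous_finsetSum _ fun n _ => ?_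
      exact ((c.A_continuous (n + 1)).comp (by fun_prop)).div_const _
    have hev := (hcont.tendsto 1).eventually (eventually_gt_nhds (b := B) (by simpa using hM))
    filter_upwards [hev] with ρ hρ h0 h1
    have hx0 : 0 ≤ r * ρ ^ c.D := by positivity
    have hx1 : r * ρ ^ c.D ≤ 1 :=
      (mul_le_of_le_one_right hr0.le (pow_le_one₀ h0 h1)).trans hr1.le
    obtain ⟨Cs, hCs⟩ := c.lower hx0 hx1 M
    refine ⟨Cs.sup c.cl + 1, ?_⟩
    obtain ⟨Cs', h2, h3⟩ := c.sum_eq (r * ρ ^ c.D) (Cs.sup c.cl + 1)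
    rw [h3]
    refine hρ.le.trans (hCs.trans (Finset.sum_le_sum_of_subset_of_nonneg ?_
      fun _ _ _ => pow_nonneg hx0 _))
    intro κ hκ
    rw [h2]
    exact Nat.lt_succ_of_le (Finset.le_sup hκ)

end Ctx

theorem main (k : ℕ) (hk : 2 ≤ k) (S : Finset (PresentedGroup (bsRel k)))
    (hS : Subgroup.closure (S : Set (PresentedGroup (bsRel k))) = ⊤) :
    Transcendental (Polynomial ℚ) (conjGrowthSeries (S : Set (PresentedGroup (bsRel k)))) := by
  obtain ⟨c, hc⟩ := exists_ctx (bsModel k hk) S hS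
  have := c.main
  unfold Ctx.cl at this
  rw [hc] at this
  exact this

end Pool.Agent.P.MP_27e7ce_al
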