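import Pool.Agent.P.MP_27e7ce_al.Defs

namespace Pool.Agent.P.MP_27e7ce_al

/-- Affine coordinates on a group isomorphic to `BS(1,k)`. -/
structure Model (G : Type) [Group G] where
  k : ℕ
  hk : 2 ≤ k
  v : G → ℚ
  h : G → ℤ
  v_mul : ∀ g g', v (g * g') = v g + (k : ℚ) ^ (h g) * v g'
  h_mul : ∀ g g', h (g * g') = h g + h g'
  ext' : ∀ g g', v g = v g' → h g = h g' → g = g'
  a : G
  t : G
  va : v a = 1
  ha : h a = 0
  vt : v t = 0
  ht : h t = 1
  frac : ∀ g, ∃ e : ℕ, ∃ z : ℤ, v g * (k : ℚ) ^ e = z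

/-- The affine group used to build coordinates. -/
@[ext] structure Aff (k : ℕ) where
  x : ℚ
  m : ℤ

namespace Aff

variable {k : ℕ}

instance : Mul (Aff k) := ⟨fun g g' => ⟨g.x + (k : ℚ) ^ g.m * g'.x, g.m + g'.m⟩⟩
instance : One (Aff k) := ⟨⟨0, 0⟩⟩
instance : Inv (Aff k) := ⟨fun g => ⟨-((k : ℚ) ^ (-g.m) * g.x), -g.m⟩⟩

@[simp] lemma mul_x (g g' : Aff k) : (g * g').x = g.x + (k : ℚ) ^ g.m * g'.x := rfl
@[simp] lemma mul_m (g g' : Aff k) : (g * g').m = g.m + g'.m := rfl
@[simp] lemma one_x : (1 : Aff k).x = 0 := rfl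
@[simp] lemma one_m : (1 : Aff k).m = 0 := rfl
@[simp] lemma inv_x (g : Aff k) : (g⁻¹).x = -((k : ℚ) ^ (-g.m) * g.x) := rfl
@[simp] lemma inv_m (g : Aff k) : (g⁻¹).m = -g.m := rfl

instance [NeZero k] : Group (Aff k) :=
  Group.ofLeftAxioms
    (by
      intro a b c
      have hk : (k : ℚ) ≠ 0 := by exact_mod_cast NeZero.ne k
      ext
      · simp only [mul_x, mul_m, zpow_add₀ hk]; ring
      · simp only [mul_m]; ring)
    (by intro a; ext <;> simp)
    (by intro a; ext <;> simp)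

lemma a_pow [NeZero k] (n : ℕ) : ((⟨1, 0⟩ : Aff k) ^ n) = ⟨n, 0⟩ := by
  induction n with
  | zero => rfl
  | succ n ih => rw [pow_succ, ih]; ext <;> simp

lemma a_zpow [NeZero k] (z : ℤ) : ((⟨1, 0⟩ : Aff k) ^ z) = ⟨z, 0⟩ := by
  obtain ⟨n, rfl | rfl⟩ := z.eq_nat_or_neg
  · rw [zpow_natCast, a_pow]; simp
  · rw [zpow_neg, zpow_natCast, a_pow]; ext <;> simp

lemma t_pow [NeZero k] (n : ℕ) : ((⟨0, 1⟩ : Aff k) ^ n) = ⟨0, n⟩ := by
  induction n with
  | zero => rfl
  | succ n ih => rw [pow_succ, ih]; ext <;> simp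

end Aff

section BS

variable (k : ℕ) [NeZero k]

/-- images of the generators -/
def gens : Fin 2 → Aff k := ![⟨1, 0⟩, ⟨0, 1⟩]

lemma gens_rel : ∀ r ∈ bsRel k, FreeGroup.lift (gens k) r = 1 := by
  intro r hr
  rw [bsRel, Set.mem_singleton_iff] at hr
  subst hr
  simp only [map_mul, map_inv, map_pow, FreeGroup.lift_apply_of, gens, Matrix.cons_val_zero,
    Matrix.cons_val_one, Aff.a_pow]
  ext <;> simp

/-- the affine representation -/
def rep : PresentedGroup (bsRel k) →* Aff k := PresentedGroup.toGroup (gens_rel k)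

omit [NeZero k] in
lemma bs_rel : (PresentedGroup.of 1 : PresentedGroup (bsRel k)) * PresentedGroup.of 0 =
    PresentedGroup.of 0 ^ k * PresentedGroup.of 1 := by
  have h := PresentedGroup.one_of_mem (rels := bsRel k) (Set.mem_singleton _)
  simp only [map_mul, map_inv, map_pow] at h
  have h' : (PresentedGroup.of 1 : PresentedGroup (bsRel k)) * PresentedGroup.of 0 *
      (PresentedGroup.of 1)⁻¹ * (PresentedGroup.of 0 ^ k)⁻¹ = 1 := h
  rw [mul_inv_eq_one, mul_inv_eq_iff_eq_mul] at h'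
  exact h'

end BS

section NF

variable {G : Type} [Group G] {a t : G} {k : ℕ}

lemma semiconj_zpow (h : t * a = a ^ k * t) (q : ℤ) : t * a ^ q = a ^ (q * k) * t := by
  have h1 : SemiconjBy t a (a ^ k) := h
  have h2 := h1.zpow_right q
  rw [SemiconjBy] at h2
  rw [h2, ← zpow_natCast, ← zpow_mul, mul_comm (k : ℤ) q]

lemma semiconj_pow (h : t * a = a ^ k * t) (p : ℕ) (q : ℤ) :
    t ^ p * a ^ q = a ^ (q * (k : ℤ) ^ p) * t ^ p := by
  induction p generalizing q with
  | zero => simp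
  | succ p ih =>
    rw [pow_succ', mul_assoc, ih, ← mul_assoc, semiconj_zpow h, mul_assoc, mul_assoc, pow_succ]

lemma nf_left (h : t * a = a ^ k * t) (z : ℤ) (p r : ℕ) (q : ℤ) :
    a ^ z * ((t ^ p)⁻¹ * a ^ q * t ^ r) = (t ^ p)⁻¹ * a ^ (z * (k : ℤ) ^ p + q) * t ^ r := by
  have h1 := semiconj_pow h p z
  have h2 : a ^ z * (t ^ p)⁻¹ = (t ^ p)⁻¹ * a ^ (z * (k : ℤ) ^ p) := by
    rw [eq_inv_mul_iff_mul_eq, ← mul_assoc, h1, mul_inv_cancel_right]
  rw [zpow_add, ← mul_assoc, ← mul_assoc, h2]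
  simp only [mul_assoc]

lemma nf_exists (h : t * a = a ^ k * t) (hgen : Subgroup.closure ({a, t} : Set G) = ⊤) (g : G) :
    ∃ (p r : ℕ) (q : ℤ), g = (t ^ p)⁻¹ * a ^ q * t ^ r := by
  have hg : g ∈ Subgroup.closure ({a, t} : Set G) := by rw [hgen]; trivial
  induction hg using Subgroup.closure_induction_left with
  | one => exact ⟨0, 0, 0, by simp⟩
  | mul_left x hx y _ ih =>
    obtain ⟨p, r, q, rfl⟩ := ih
    rcases hx with rfl | rfl
    · exact ⟨p, r, _, by simpa using nf_left h 1 p r q⟩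
    · cases p with
      | zero =>
        refine ⟨0, r + 1, q * k, ?_⟩
        simp only [pow_zero, inv_one, one_mul]
        rw [← mul_assoc, semiconj_zpow h, pow_succ', mul_assoc]
      | succ p =>
        refine ⟨p, r, q, ?_⟩
        rw [pow_succ']
        group
  | inv_mul_cancel x hx y _ ih =>
    obtain ⟨p, r, q, rfl⟩ := ih
    rcases hx with rfl | rfl
    · exact ⟨p, r, _, by simpa using nf_left h (-1) p r q⟩
    · refine ⟨p + 1, r, q, ?_⟩
      rw [pow_succ]
      group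

end NF

section BS2

variable (k : ℕ) [NeZero k]

omit [NeZero k] in
lemma bs_gen : Subgroup.closure ({PresentedGroup.of 0, PresentedGroup.of 1} :
    Set (PresentedGroup (bsRel k))) = ⊤ := by
  rw [← PresentedGroup.closure_range_of]
  congr 1
  ext x
  simp only [Set.mem_insert_iff, Set.mem_singleton_iff, Set.mem_range, Fin.exists_fin_two]
  constructor
  · rintro (h | h)
    · exact Or.inl h.symm
    · exact Or.inr h.symm
  · rintro (h | h)
    · exact Or.inl h.symm
    · exact Or.inr h.symm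

lemma rep_a : rep k (PresentedGroup.of 0) = ⟨1, 0⟩ := by
  simp [rep, PresentedGroup.toGroup.of, gens]

lemma rep_t : rep k (PresentedGroup.of 1) = ⟨0, 1⟩ := by
  simp [rep, PresentedGroup.toGroup.of, gens]

lemma rep_nf (p r : ℕ) (q : ℤ) :
    rep k ((PresentedGroup.of 1 ^ p)⁻¹ * PresentedGroup.of 0 ^ q * PresentedGroup.of 1 ^ r) =
      ⟨(k : ℚ) ^ (-(p : ℤ)) * q, -(p : ℤ) + r⟩ := by
  simp only [map_mul, map_inv, map_pow, map_zpow, rep_a, rep_t, Aff.a_zpow, Aff.t_pow]
  ext <;> simp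

lemma rep_inj : Function.Injective (rep k) := by
  rw [injective_iff_map_eq_one]
  intro g hg
  obtain ⟨p, r, q, rfl⟩ := nf_exists (bs_rel k) (bs_gen k) g
  rw [rep_nf] at hg
  have h1 := congrArg Aff.x hg
  have h2 := congrArg Aff.m hg
  have hk : (k : ℚ) ≠ 0 := by exact_mod_cast NeZero.ne k
  simp only [Aff.one_x, Aff.one_m, mul_eq_zero, zpow_ne_zero _ hk, false_or,
    Int.cast_eq_zero] at h1 h2
  have h3 : r = p := by omega
  subst h1 h3
  simp

end BS2

/-- coordinates on the presented group -/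
noncomputable def bsModel (k : ℕ) (hk : 2 ≤ k) : Model (PresentedGroup (bsRel k)) :=
  haveI : NeZero k := ⟨by omega⟩
  { k := k
    hk := hk
    v := fun g => (rep k g).x
    h := fun g => (rep k g).m
    v_mul := fun g g' => by simp
    h_mul := fun g g' => by simp
    ext' := fun g g' h1 h2 => rep_inj k (Aff.ext h1 h2)
    a := PresentedGroup.of 0
    t := PresentedGroup.of 1
    va := by simp [rep_a]
    ha := by simp [rep_a]
    vt := by simp [rep_t]
    ht := by simp [rep_t]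
    frac := fun g => by
      obtain ⟨p, r, q, rfl⟩ := nf_exists (bs_rel k) (bs_gen k) g
      refine ⟨p, q, ?_⟩
      have hk : (k : ℚ) ≠ 0 := by exact_mod_cast NeZero.ne k
      rw [rep_nf]
      simp only [zpow_neg, zpow_natCast]
      field_simp }

end Pool.Agent.P.MP_27e7ce_al
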