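import Pool.Agent.P.MP_27e7ce_al.Radius

namespace Pool.Agent.P.MP_27e7ce_al

open Finset

/-- pairwise non-conjugate -/
def NC {G : Type} [Group G] (F : Finset G) : Prop := ∀ g ∈ F, ∀ g' ∈ F, IsConj g g' → g = g'

lemma sum_le_of_inj {α β : Type} (s : Finset α) (t : Finset β) (φ : α → β) (f : α → ℝ)
    (g : β → ℝ) (hm : ∀ a ∈ s, φ a ∈ t) (hi : Set.InjOn φ s) (hf : ∀ a ∈ s, f a ≤ g (φ a))
    (hg : ∀ b ∈ t, 0 ≤ g b) : ∑ a ∈ s, f a ≤ ∑ b ∈ t, g b := by
  classical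
  calc ∑ a ∈ s, f a ≤ ∑ a ∈ s, g (φ a) := Finset.sum_le_sum hf
    _ = ∑ b ∈ s.image φ, g b := (Finset.sum_image hi).symm
    _ ≤ ∑ b ∈ t, g b := Finset.sum_le_sum_of_subset_of_nonneg
        (Finset.image_subset_iff.2 hm) fun b hb _ => hg b hb

namespace Ctx

variable {G : Type} [Group G] (c : Ctx G)

lemma v_conj (y g : G) :
    c.v (y * g * y⁻¹) = (c.k : ℚ) ^ (c.h y) * c.v g + (1 - (c.k : ℚ) ^ (c.h g)) * c.v y := by
  simp only [v_mul', v_inv, h_mul']
  rw [zpow_add₀ c.k_ne, zpow_neg]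
  have := (zpow_pos c.k_pos (c.h y)).ne'
  field_simp
  ring

lemma h_conj {g g' : G} (h : IsConj g g') : c.h g = c.h g' := by
  obtain ⟨y, rfl⟩ := isConj_iff.1 h
  simp

lemma conj_el_mod (u u' : ℤ) (m : ℕ) (h : u ≡ u' [ZMOD (c.k : ℤ) ^ m - 1]) :
    IsConj (c.el u m) (c.el u' m) := by
  obtain ⟨w, hw⟩ := h.dvd
  refine isConj_iff.2 ⟨c.a ^ (-w), c.ext' _ _ ?_ (by simp)⟩
  rw [v_conj]
  simp only [h_zpow, h_a, mul_zero, zpow_zero, v_el, h_el, v_a_zpow, zpow_natCast]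
  have : (u' : ℚ) - u = ((c.k : ℚ) ^ m - 1) * w := by exact_mod_cast hw
  push_cast
  linarith

lemma conj_el_rot (u : ℤ) (m : ℤ) (i : ℕ) :
    IsConj (c.el u m) (c.el ((c.k : ℤ) ^ i * u) m) := by
  refine isConj_iff.2 ⟨c.t ^ (i : ℤ), c.ext' _ _ ?_ (by simp)⟩
  rw [v_conj]
  simp [v_t_pow]

lemma exists_conj_int (g : G) : ∃ z : ℤ, IsConj g (c.el z (c.h g)) := by
  obtain ⟨e, z, hz⟩ := c.frac g
  refine ⟨z, isConj_iff.2 ⟨c.t ^ (e : ℤ), c.ext' _ _ ?_ (by simp)⟩⟩
  rw [v_conj]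
  simp [v_t_pow, ← hz, mul_comm]

lemma Q_pos {m : ℕ} (hm : 1 ≤ m) : (0 : ℤ) < (c.k : ℤ) ^ m - 1 := by
  have h1 : (2 : ℤ) ≤ c.k := by exact_mod_cast c.hk
  have := one_lt_pow₀ (show (1 : ℤ) < c.k by omega) (show m ≠ 0 by omega)
  omega

lemma exists_conj_red (g : G) {m : ℕ} (hm : 1 ≤ m) (hg : c.h g = m) :
    ∃ u : ℤ, 0 ≤ u ∧ u < (c.k : ℤ) ^ m - 1 ∧ IsConj g (c.el u m) := by
  obtain ⟨z, hz⟩ := c.exists_conj_int g
  rw [hg] at hz
  exact ⟨z % ((c.k : ℤ) ^ m - 1), Int.emod_nonneg _ (c.Q_pos hm).ne',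
    Int.emod_lt_of_pos _ (c.Q_pos hm),
    hz.trans (c.conj_el_mod _ _ m (Int.mod_modEq _ _).symm)⟩

lemma mem_range_toNat {u : ℤ} {m : ℕ} (h0 : 0 ≤ u) (h1 : u < (c.k : ℤ) ^ m) :
    u.toNat ∈ range (c.k ^ m) := by
  rw [Finset.mem_range]
  have : (u.toNat : ℤ) < ((c.k ^ m : ℕ) : ℤ) := by push_cast; omega
  exact_mod_cast this

variable {c}

lemma CutConst.pos_part {C : ℕ} (hC : c.CutConst C) {m : ℕ} (hm : 1 ≤ m) (F : Finset G)
    (hF : NC F) (hh : ∀ g ∈ F, c.h g = m) {x s : ℝ} (hx : 0 ≤ x) (hx1 : x ≤ 1) (hs : 0 ≤ s)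
    (hs1 : s ≤ 1) (hxs : x ≤ s ^ (2 * c.D)) (hA : ∀ d, c.A d x ≤ 1) :
    x ^ (2 * C) * ∑ g ∈ F, x ^ c.len g ≤ 2 / m * c.A m x + (m + 1) * s ^ m := by
  classical
  choose! u hu0 hu1 hu using fun g (hg : g ∈ F) => c.exists_conj_red g hm (hh g hg)
  set Q : ℤ := (c.k : ℤ) ^ m - 1 with hQ
  have hQ0 : 0 < Q := c.Q_pos hm
  set rot : ℕ → G → ℤ := fun i g => ((c.k : ℤ) ^ i * u g) % Q with hrot
  have rot0 : ∀ i g, 0 ≤ rot i g := fun i g => Int.emod_nonneg _ hQ0.ne'
  have rot1 : ∀ i g, rot i g < (c.k : ℤ) ^ m := fun i g =>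
    (Int.emod_lt_of_pos _ hQ0).trans (by omega)
  have rotc : ∀ i, ∀ g ∈ F, IsConj g (c.el (rot i g) m) := fun i g hg =>
    ((hu g hg).trans (c.conj_el_rot _ _ i)).trans (c.conj_el_mod _ _ m (Int.mod_modEq _ _).symm)
  set good : G → Prop := fun g => Set.InjOn (fun i => rot i g) (range (m / 2 + 1)) with hgood
  rw [← Finset.sum_filter_add_sum_filter_not F good, mul_add]
  have hxC : x ^ (2 * C) ≤ x ^ C := pow_le_pow_of_le_one hx hx1 (by omega)
  refine add_le_add ?_ ?_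
  · have h1 : ∑ p ∈ (F.filter good) ×ˢ range (m / 2 + 1), x ^ C * x ^ c.len p.1 ≤ c.A m x := by
      refine sum_le_of_inj _ _ (fun p => (rot p.2 p.1).toNat) _ _
        (fun p _ => c.mem_range_toNat (rot0 _ _) (rot1 _ _)) ?_ ?_ (fun _ _ => pow_nonneg hx _)
      · rintro ⟨g, i⟩ hp ⟨g', i'⟩ hp' h
        simp only [Finset.coe_product, Set.mem_prod, Finset.coe_filter, Set.mem_ofPred_eq] at hp hp'
        have e : rot i g = rot i' g' := by
          have := rot0 i g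
          have := rot0 i' g'
          simp only at h
          omega
        have e2 : g = g' := hF g hp.1.1 g' hp'.1.1
          ((rotc i g hp.1.1).trans (by rw [e]; exact (rotc i' g' hp'.1.1).symm))
        subst e2
        rw [hp.1.2 hp.2 hp'.2 e]
      · rintro ⟨g, i⟩ hp
        simp only [Finset.mem_product, Finset.mem_filter] at hp
        rw [← pow_add, Int.toNat_of_nonneg (rot0 _ _)]
        refine pow_le_pow_of_le_one hx hx1 ?_
        have := hC.conj (rot i g) m (rot0 _ _) (rot1 _ _) g (rotc i g hp.1.1)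
        simp only
        omega
    rw [Finset.sum_product] at h1
    simp only [Finset.sum_const, Finset.card_range, nsmul_eq_mul] at h1
    rw [← Finset.mul_sum, ← Finset.mul_sum] at h1
    have hS : 0 ≤ ∑ g ∈ F with good g, x ^ c.len g :=
      Finset.sum_nonneg fun _ _ => pow_nonneg hx _
    have hm0 : (0 : ℝ) < m := by exact_mod_cast hm
    have h2 : (m : ℝ) ≤ 2 * ((m / 2 + 1 : ℕ) : ℝ) := by
      exact_mod_cast (by omega : m ≤ 2 * (m / 2 + 1))
    rw [div_mul_eq_mul_div, le_div_iff₀ hm0]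
    have h3 : 0 ≤ x ^ C * ∑ g ∈ F with good g, x ^ c.len g := mul_nonneg (pow_nonneg hx _) hS
    calc (x ^ (2 * C) * ∑ g ∈ F with good g, x ^ c.len g) * m
        ≤ (x ^ C * ∑ g ∈ F with good g, x ^ c.len g) * (2 * ((m / 2 + 1 : ℕ) : ℝ)) := by
          gcongr
      _ ≤ 2 * c.A m x := by nlinarith
  · have hbad : ∀ g ∈ F.filter (fun g => ¬ good g), ∃ d : ℕ, 1 ≤ d ∧ d ≤ m / 2 ∧
        ((c.k : ℤ) ^ d - 1) * u g = Q * (u g % (c.k : ℤ) ^ d) := by
      intro g hg
      rw [Finset.mem_filter] at hg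
      have hg2 := hg.2
      simp only [hgood, Set.InjOn, not_forall] at hg2
      obtain ⟨i, hi, i', hi', he, hne⟩ := hg2
      wlog hlt : i < i' generalizing i i'
      · exact this i' hi' i hi he.symm (Ne.symm hne) (by omega)
      simp only [Finset.coe_range, Set.mem_Iio] at hi hi'
      obtain ⟨d, rfl⟩ := Nat.exists_eq_add_of_le hlt.le
      obtain ⟨n, hn⟩ := Nat.exists_eq_add_of_le (show i ≤ m by omega)
      have h1 : (c.k : ℤ) ^ i * u g ≡ (c.k : ℤ) ^ (i + d) * u g [ZMOD Q] := he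
      have h2 := (h1.mul_left ((c.k : ℤ) ^ n)).dvd
      have h3 : Q ∣ ((c.k : ℤ) ^ d - 1) * u g := by
        have e : (c.k : ℤ) ^ n * ((c.k : ℤ) ^ (i + d) * u g) - (c.k : ℤ) ^ n * ((c.k : ℤ) ^ i * u g) =
            ((c.k : ℤ) ^ d - 1) * u g + Q * (((c.k : ℤ) ^ d - 1) * u g) := by
          rw [hQ, hn]; ring
        rw [e] at h2
        exact (dvd_add_left (dvd_mul_right Q _)).1 h2
      obtain ⟨w, hw⟩ := h3
      refine ⟨d, by omega, by omega, ?_⟩
      have hd0 : 0 < (c.k : ℤ) ^ d - 1 := c.Q_pos (by omega)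
      have hw0 : 0 ≤ w := by
        by_contra hneg
        have := hu0 g hg.1
        nlinarith
      have hw1 : w < (c.k : ℤ) ^ d := by
        by_contra hneg
        have := hu1 g hg.1
        nlinarith
      obtain ⟨n', hn'⟩ := Nat.exists_eq_add_of_le (show d ≤ m by omega)
      have h4 : u g = w + (c.k : ℤ) ^ d * (u g - (c.k : ℤ) ^ n' * w) := by
        rw [hQ, hn', pow_add] at hw
        linarith
      have h5 : u g % (c.k : ℤ) ^ d = w := by
        rw [h4, Int.add_mul_emod_self_left, Int.emod_eq_of_lt hw0 hw1]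
      rw [h5, hw]
    choose! d hd1 hd2 hd3 using hbad
    have kpos : ∀ n : ℕ, (0 : ℤ) < (c.k : ℤ) ^ n := fun n => by have := c.hk; positivity
    have h1 : ∑ g ∈ F with ¬ good g, x ^ (2 * C) * x ^ c.len g ≤
        ∑ p ∈ (range (m + 1)).sigma (fun d => range (c.k ^ d)),
          x ^ (c.L (p.2 : ℕ) p.1) * s ^ m := by
      refine sum_le_of_inj _ _
        (fun g => (⟨d g, (u g % (c.k : ℤ) ^ d g).toNat⟩ : Σ _ : ℕ, ℕ)) _ _ ?_ ?_ ?_
        (fun _ _ => by positivity)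
      · intro g hg
        rw [Finset.mem_sigma]
        refine ⟨Finset.mem_range.2 (by have := hd2 g hg; simp only; omega), ?_⟩
        exact c.mem_range_toNat (Int.emod_nonneg _ (kpos _).ne') (Int.emod_lt_of_pos _ (kpos _))
      · intro g hg g' hg' h
        have hg : g ∈ F.filter (fun g => ¬ good g) := hg
        have hg' : g' ∈ F.filter (fun g => ¬ good g) := hg'
        simp only [Sigma.mk.injEq, heq_eq_eq] at h
        have e1 := hd3 g hg
        have e2 := hd3 g' hg'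
        have e3 : u g % (c.k : ℤ) ^ d g = u g' % (c.k : ℤ) ^ d g' := by
          have := Int.emod_nonneg (u g) (kpos (d g)).ne'
          have := Int.emod_nonneg (u g') (kpos (d g')).ne'
          have := h.2
          omega
        rw [e3, ← e2, h.1] at e1
        have e4 := mul_left_cancel₀ (c.Q_pos (hd1 g' hg')).ne' e1
        have hgF := (Finset.mem_filter.1 hg).1
        have hgF' := (Finset.mem_filter.1 hg').1
        exact hF g hgF g' hgF' ((hu g hgF).trans (by rw [e4]; exact (hu g' hgF').symm))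
      · intro g hg
        have hgF := (Finset.mem_filter.1 hg).1
        simp only
        rw [Int.toNat_of_nonneg (Int.emod_nonneg _ (kpos _).ne')]
        obtain ⟨n, hn⟩ := Nat.exists_eq_add_of_le (show d g ≤ m by have := hd2 g hg; omega)
        have t1 := hC.conj (u g) m (hu0 g hgF) (by have := hu1 g hgF; omega) g (hu g hgF)
        have t2 := hC.add (u g % (c.k : ℤ) ^ d g) (u g / (c.k : ℤ) ^ d g) (d g) n
          (Int.emod_nonneg _ (kpos _).ne') (Int.emod_lt_of_pos _ (kpos _))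
        rw [Int.emod_add_mul_ediv, ← hn] at t2
        have t3 := c.le_L (u g / (c.k : ℤ) ^ d g) n
        have t4 := hd2 g hg
        calc x ^ (2 * C) * x ^ c.len g = x ^ (2 * C + c.len g) := (pow_add _ _ _).symm
          _ ≤ x ^ (c.L (u g % (c.k : ℤ) ^ d g) (d g) + c.L (u g / (c.k : ℤ) ^ d g) n) :=
              pow_le_pow_of_le_one hx hx1 (by omega)
          _ = x ^ (c.L (u g % (c.k : ℤ) ^ d g) (d g)) * x ^ (c.L (u g / (c.k : ℤ) ^ d g) n) :=
              pow_add _ _ _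
          _ ≤ _ := by
              refine mul_le_mul_of_nonneg_left ?_ (pow_nonneg hx _)
              refine (pow_le_pow_left₀ hx hxs _).trans ?_
              rw [← pow_mul]
              refine pow_le_pow_of_le_one hs hs1 ?_
              rw [mul_assoc]
              omega
    rw [Finset.mul_sum]
    refine h1.trans ?_
    rw [Finset.sum_sigma]
    have h2 : ∀ d ∈ range (m + 1), ∑ w ∈ range (c.k ^ d), x ^ (c.L (w : ℕ) d) * s ^ m ≤ s ^ m := by
      intro d _
      rw [← Finset.sum_mul]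
      exact mul_le_of_le_one_left (pow_nonneg hs _) (hA d)
    refine (Finset.sum_le_sum h2).trans (le_of_eq ?_)
    simp

end Ctx

end Pool.Agent.P.MP_27e7ce_al
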