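import Pool.Agent.P.MP_27e7ce_al.Cut3

namespace Pool.Agent.P.MP_27e7ce_al

open Finset

lemma sum_range_mul' (a b : ℕ) (F : ℕ → ℝ) :
    ∑ i ∈ range (a * b), F i = ∑ w ∈ range b, ∑ u ∈ range a, F (u + a * w) := by
  induction b with
  | zero => simp
  | succ b ih =>
    rw [Nat.mul_succ, Finset.sum_range_add, ih, Finset.sum_range_succ]
    simp only [add_comm]

namespace Ctx

variable {G : Type} [Group G] (c : Ctx G)

/-- generating polynomial of digit strings of size `m` -/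
noncomputable def A (m : ℕ) (x : ℝ) : ℝ := ∑ u ∈ range (c.k ^ m), x ^ (c.L (u : ℕ) m)

lemma A_nonneg (m : ℕ) {x : ℝ} (hx : 0 ≤ x) : 0 ≤ c.A m x :=
  Finset.sum_nonneg fun _ _ => pow_nonneg hx _

lemma A_zero (x : ℝ) : c.A 0 x = 1 := by
  simp [A, L, el, c.len_one]

lemma A_continuous (m : ℕ) : Continuous (c.A m) := by
  unfold A; fun_prop

lemma A_add (m n : ℕ) (x : ℝ) : c.A (m + n) x =
    ∑ w ∈ range (c.k ^ n), ∑ u ∈ range (c.k ^ m),
      x ^ (c.L ((u : ℤ) + (c.k : ℤ) ^ m * (w : ℕ)) (m + n)) := by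
  rw [A, pow_add, sum_range_mul']
  simp

lemma A_super (m n : ℕ) {x : ℝ} (hx : 0 ≤ x) (hx1 : x ≤ 1) :
    c.A m x * c.A n x ≤ c.A (m + n) x := by
  rw [A_add, A, A, mul_comm, Finset.sum_mul_sum]
  refine Finset.sum_le_sum fun w _ => Finset.sum_le_sum fun u _ => ?_
  rw [← pow_add]
  refine pow_le_pow_of_le_one hx hx1 ?_
  have := c.L_sub u w m n
  omega

lemma A_scale (m : ℕ) {r ρ : ℝ} (hr : 0 ≤ r) (hρ : 0 ≤ ρ) (hρ1 : ρ ≤ 1) :
    c.A m (r * ρ ^ c.D) ≤ ρ ^ m * c.A m r := by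
  rw [A, A, Finset.mul_sum]
  refine Finset.sum_le_sum fun u _ => ?_
  rw [mul_pow, ← pow_mul, mul_comm]
  exact mul_le_mul_of_nonneg_right (pow_le_pow_of_le_one hρ hρ1 (c.le_L _ _)) (pow_nonneg hr _)

variable {c}

lemma CutConst.A_sub {C : ℕ} (hC : c.CutConst C) (m n : ℕ) {x : ℝ} (hx : 0 ≤ x) (hx1 : x ≤ 1) :
    x ^ C * c.A (m + n) x ≤ c.A m x * c.A n x := by
  rw [A_add, A, A, mul_comm (∑ u ∈ range (c.k ^ m), _), Finset.sum_mul_sum, Finset.mul_sum]
  refine Finset.sum_le_sum fun w _ => ?_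
  rw [Finset.mul_sum]
  refine Finset.sum_le_sum fun u hu => ?_
  rw [← pow_add, ← pow_add]
  refine pow_le_pow_of_le_one hx hx1 ?_
  have := hC.add u w m n (by positivity) (by exact_mod_cast Finset.mem_range.1 hu)
  omega

lemma CutConst.exists_radius {C : ℕ} (hC : c.CutConst C) :
    ∃ r : ℝ, 0 < r ∧ r < 1 ∧ ∀ m, c.A m r ≤ 1 ∧ r ^ C ≤ c.A m r := by
  set E : Set ℝ := Set.Icc 0 1 ∩ ⋂ m, {x | c.A m x ≤ 1} with hE
  have hEc : IsCompact E := isCompact_Icc.inter_right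
    (isClosed_iInter fun m => isClosed_le (c.A_continuous m) continuous_const)
  have hk : (2 : ℝ) ≤ c.k := by exact_mod_cast c.hk
  have hk0 : (0 : ℝ) < c.k := by linarith
  have hinv : (0 : ℝ) < (c.k : ℝ)⁻¹ := inv_pos.2 hk0
  have hinv1 : (c.k : ℝ)⁻¹ ≤ 1 := inv_le_one_of_one_le₀ (by linarith)
  have h0 : (1 * (c.k : ℝ)⁻¹ ^ c.D) ∈ E := by
    refine ⟨⟨by positivity, by rw [one_mul]; exact pow_le_one₀ hinv.le hinv1⟩,
      Set.mem_iInter.2 fun m => ?_⟩
    refine (c.A_scale m zero_le_one hinv.le hinv1).trans (le_of_eq ?_)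
    simp only [A, one_pow, Finset.sum_const, Finset.card_range, nsmul_eq_mul, mul_one]
    push_cast
    rw [← mul_pow, inv_mul_cancel₀ hk0.ne', one_pow]
  obtain ⟨r, hrE, hr⟩ := hEc.exists_isGreatest ⟨_, h0⟩
  have hr0 : 0 < r := lt_of_lt_of_le (by positivity) (hr h0)
  have hrA : ∀ m, c.A m r ≤ 1 := fun m => Set.mem_iInter.1 hrE.2 m
  have hr1 : r < 1 := by
    refine lt_of_le_of_ne hrE.1.2 fun h => ?_
    have := hrA 1
    rw [h] at this
    simp only [A, one_pow, Finset.sum_const, Finset.card_range, nsmul_eq_mul, mul_one,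
      pow_one] at this
    linarith
  refine ⟨r, hr0, hr1, fun m => ⟨hrA m, ?_⟩⟩
  by_contra hcon
  push Not at hcon
  have hopen : IsOpen ({x : ℝ | c.A m x < x ^ C} ∩ Set.Iio 1) :=
    (isOpen_lt (c.A_continuous m) (by fun_prop)).inter isOpen_Iio
  obtain ⟨x, hx, hrx⟩ : ∃ x ∈ ({x : ℝ | c.A m x < x ^ C} ∩ Set.Iio 1), r < x := by
    obtain ⟨ε, hε, hb⟩ := Metric.isOpen_iff.1 hopen r ⟨hcon, hr1⟩
    refine ⟨r + ε / 2, hb ?_, by linarith⟩
    rw [Metric.mem_ball, Real.dist_eq, add_sub_cancel_left, abs_of_pos (by linarith)]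
    linarith
  have hx0 : 0 < x := hr0.trans hrx
  have hx1 : x ≤ 1 := le_of_lt hx.2
  have hxC : 0 < x ^ C := pow_pos hx0 _
  set β := c.A m x / x ^ C with hβ
  have hβ1 : β < 1 := (div_lt_one hxC).2 hx.1
  have hβ0 : 0 ≤ β := div_nonneg (c.A_nonneg m hx0.le) hxC.le
  have up : ∀ j : ℕ, c.A (j * m) x ≤ β ^ j := by
    intro j
    induction j with
    | zero => simp [A_zero]
    | succ j ih =>
      have h1 := hC.A_sub (j * m) m hx0.le hx1
      rw [Nat.succ_mul, pow_succ]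
      have h2 : c.A (j * m + m) x ≤ c.A (j * m) x * β := by
        rw [hβ, ← mul_div_assoc, le_div_iff₀ hxC]; linarith
      exact h2.trans (mul_le_mul_of_nonneg_right ih hβ0)
  have hxE : x ∈ E := by
    refine ⟨⟨hx0.le, hx1⟩, Set.mem_iInter.2 fun n => ?_⟩
    by_contra hn
    have hn : 1 < c.A n x := not_le.1 hn
    have low : ∀ j : ℕ, 1 ≤ c.A (n * j) x := by
      intro j
      induction j with
      | zero => simp [A_zero]
      | succ j ih =>
        have h1 := c.A_super (n * j) n hx0.le hx1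
        rw [Nat.mul_succ]
        nlinarith
    have hn0 : n ≠ 0 := by
      rintro rfl
      rw [A_zero] at hn
      exact lt_irrefl _ hn
    have := (low m).trans (up n)
    have := pow_lt_one₀ hβ0 hβ1 hn0
    linarith
  exact absurd (hr hxE) (not_le.2 hrx)

end Ctx

end Pool.Agent.P.MP_27e7ce_al
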